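import Mathlib

namespace Pool.Agent.Helper33.Eliahou

lemma sum_desc (j : ℕ) : 2 * ∑ i ∈ Finset.range (j - 1), (j - 1 - i) = j * (j - 1) := by
  have h := Finset.sum_range_reflect (fun i => i) (j - 1 + 1)
  have h1 : ∑ i ∈ Finset.range (j - 1 + 1), (j - 1 + 1 - 1 - i)
      = ∑ i ∈ Finset.range (j - 1), (j - 1 - i) := by
    rw [Finset.sum_range_succ]
    simp
  rw [h1] at h
  rw [h]
  have h2 := Finset.sum_range_id_mul_two (j - 1 + 1)
  rw [mul_comm, h2]
  rcases j with _ | j
  · simp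
  · simp

lemma S_two (j : ℕ) : 2 * ∑ i ∈ Finset.range (j - 1), ((j - 1 - i) * 2 / 2) = j * (j - 1) := by
  rw [← sum_desc]
  congr 1
  apply Finset.sum_congr rfl
  intro i _
  omega

lemma S_lower (j D : ℕ) (hD : 2 ≤ D) :
    D * (j * (j - 1)) ≤ 6 * ∑ i ∈ Finset.range (j - 1), ((j - 1 - i) * D / 2) := by
  rw [← sum_desc, show 6 * ∑ i ∈ Finset.range (j - 1), ((j - 1 - i) * D / 2)
    = 2 * (3 * ∑ i ∈ Finset.range (j - 1), ((j - 1 - i) * D / 2)) by ring,
    show D * (2 * ∑ i ∈ Finset.range (j - 1), (j - 1 - i))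
    = 2 * ∑ i ∈ Finset.range (j - 1), ((j - 1 - i) * D) by rw [← Finset.sum_mul]; ring]
  apply Nat.mul_le_mul_left
  rw [Finset.mul_sum]
  apply Finset.sum_le_sum
  intro i hi
  rw [Finset.mem_range] at hi
  have : 2 ≤ (j - 1 - i) * D := by
    calc 2 ≤ D := hD
      _ = 1 * D := by ring
      _ ≤ (j - 1 - i) * D := Nat.mul_le_mul_right D (by omega)
  omega

lemma arithA (J r t s d P Q : ℤ) (hJ : 1 ≤ J) (hr : 1 ≤ r) (hrt : r ≤ t)
    (hs : 1 ≤ s) (hd : 1 ≤ d) (hv : s * d + 1 ≤ J * r)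
    (hQ : 2 * (r * t) ≤ 2 * Q + (r * r - r))
    (hP : Q * ((J + 1) * J) ≤ 2 * P) : t + s ≤ P := by
  obtain ⟨w, hw, rfl⟩ : ∃ w, 0 ≤ w ∧ t = r + w := ⟨t - r, by omega, by ring⟩
  have h1 : s + 1 ≤ J * r := by nlinarith
  have h2 : r * (r + 1 + 2 * w) ≤ 2 * Q := by nlinarith
  have hJJ : 0 ≤ (J + 1) * J := by positivity
  have h3 : (r * (r + 1 + 2 * w)) * ((J + 1) * J) ≤ 4 * P := by nlinarith
  have h4 : 4 * (r + w + s) ≤ 4 * (r + w + J * r - 1) := by linarith
  have h5 : 4 * (r + w + J * r - 1) ≤ (r * (r + 1 + 2 * w)) * ((J + 1) * J) := by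
    rcases lt_or_ge J 2 with hJ2 | hJ2
    · have : J = 1 := by omega
      subst this
      have h6 : 0 ≤ (r - 1) * w := mul_nonneg (by omega) hw
      have h7 : 0 ≤ (r - 1) * (r - 2) := by
        rcases lt_or_ge r 2 with h | h
        · have : r = 1 := by omega
          subst this; norm_num
        · exact mul_nonneg (by omega) (by omega)
      nlinarith
    · have h6 : 4 ≤ J * (r + 1) := by nlinarith
      have h7 : 0 ≤ (J + 1) * r * (J * (r + 1) - 4) :=
        mul_nonneg (mul_nonneg (by omega) (by omega)) (by linarith)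
      have h8 : 6 ≤ (J + 1) * J := by nlinarith
      have h9 : 6 ≤ (J + 1) * J * r := by nlinarith
      have h10 : 0 ≤ w * (2 * ((J + 1) * J * r) - 4) := mul_nonneg hw (by linarith)
      nlinarith
  linarith


lemma arithB_two (k D r t s d P Q X : ℤ) (hk : 1 ≤ k) (hD1 : 2 * k ≤ D) (hD2 : D ≤ 2 * k + 1)
    (hrt : r ≤ t) (hs : 1 ≤ s) (hd : k ≤ d) (hv : s * d + 1 ≤ r)
    (hQ : 2 * (r * t) ≤ 2 * Q + (r * r - r)) (hP : Q * k ≤ P)
    (hX : 0 ≤ X) (hX2 : D - d ≤ X) : (t + s - 2) * D ≤ P + t * X + 1 := by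
  have hd1 : 1 ≤ d := by omega
  have hsd : 1 ≤ s * d := by nlinarith
  obtain ⟨r0, hr0⟩ : ∃ r0, r0 = s * d + 1 := ⟨_, rfl⟩
  have hr0r : r0 ≤ r := by omega
  obtain ⟨w, hw, rfl⟩ : ∃ w, 0 ≤ w ∧ t = r0 + w := ⟨t - r0, by omega, by ring⟩
  have h1 : r0 * (2 * (r0 + w) - r0 + 1) ≤ 2 * Q := by
    have h2 : 0 ≤ (r - r0) * (2 * (r0 + w) + 1 - r - r0) :=
      mul_nonneg (by omega) (by omega)
    nlinarith
  have h3 : k * (r0 * (r0 + 1 + 2 * w)) ≤ 2 * P := by
    have h4 : k * (r0 * (r0 + 1 + 2 * w)) ≤ k * (2 * Q) := by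
      apply mul_le_mul_of_nonneg_left _ (by omega)
      linarith
    linarith
  -- the `w` coefficient
  have hks : s * d + 1 ≤ k * r0 := by
    have : s * d + 1 = r0 := hr0.symm
    nlinarith
  have hw1 : 0 ≤ w * (k * r0 + X - D) := by
    apply mul_nonneg hw
    have h5 : d ≤ s * d := by nlinarith
    linarith
  -- the constant term
  have hmain : 0 ≤ k * (r0 * (r0 + 1)) + 2 * (r0 * X) + 2 + 2 * D - 2 * (r0 + s - 1) * D := by
    rcases le_or_gt d D with hdD | hdD
    · -- use X ≥ D - d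
      have h5 : r0 * (D - d) ≤ r0 * X := mul_le_mul_of_nonneg_left hX2 (by omega)
      have h6 : 0 ≤ k * (r0 * (r0 + 1)) - 2 * (r0 * d) + 2 + (4 - 2 * s) * D := by
        rcases lt_or_ge s 3 with hs3 | hs3
        · have hs12 : s = 1 ∨ s = 2 := by omega
          rcases hs12 with rfl | rfl
          · have e : r0 = d + 1 := by rw [hr0]; ring
            rw [e]
            rcases lt_or_ge k 2 with hk2 | hk2
            · have : k = 1 := by omega
              subst this
              have hD23 : D = 2 ∨ D = 3 := by omega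
              rcases hD23 with rfl | rfl
              · have hd12 : d = 1 ∨ d = 2 := by omega
                rcases hd12 with rfl | rfl <;> norm_num
              · have hd12 : d = 1 ∨ d = 2 ∨ d = 3 := by omega
                rcases hd12 with rfl | rfl | rfl <;> norm_num
            · have h7 : 0 ≤ (k - 2) * ((d + 1) * (d + 1 + 1)) := by
                apply mul_nonneg (by omega)
                positivity
              nlinarith
          · have e : r0 = 2 * d + 1 := by rw [hr0]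
            rw [e]
            have h7 : 0 ≤ (k - 1) * ((2 * d + 1) * (2 * d + 1 + 1)) := by
              apply mul_nonneg (by omega)
              positivity
            nlinarith
        · have h8 : (2 * s - 4) * D ≤ (2 * s - 4) * (3 * k) :=
            mul_le_mul_of_nonneg_left (by omega) (by omega)
          have hsd3 : 3 ≤ s * d := by nlinarith
          have h9 : 0 ≤ r0 * (r0 + 1) - 6 * s + 12 := by
            have : s ≤ s * d := by nlinarith
            nlinarith
          have h10 : 0 ≤ (k - 1) * (r0 * (r0 + 1) - 6 * s + 12) :=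
            mul_nonneg (by omega) h9
          have h11 : 0 ≤ r0 * (r0 + 1) - 6 * s + 12 - 2 * (r0 * d) + 2 := by
            rw [hr0]
            have h12 : 0 ≤ (d - 1) * (s * (s - 2) * (d + 1) + (3 * s - 2)) := by
              apply mul_nonneg (by omega)
              have : 0 ≤ s * (s - 2) := mul_nonneg (by omega) (by omega)
              have : 0 ≤ s * (s - 2) * (d + 1) := mul_nonneg this (by omega)
              linarith
            nlinarith [sq_nonneg (s - 3)]
          nlinarith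
      nlinarith
    · -- d > D
      have h5 : 0 ≤ r0 * X := mul_nonneg (by omega) hX
      have hd3 : 3 ≤ d := by omega
      have hr3 : 3 * s + 1 ≤ r0 := by rw [hr0]; nlinarith
      have h6 : (2 * s + 2 * r0 - 4) * D ≤ (2 * s + 2 * r0 - 4) * (3 * k) :=
        mul_le_mul_of_nonneg_left (by omega) (by omega)
      have h7 : 0 ≤ r0 * (r0 + 1) + 12 - 6 * s - 6 * r0 := by
        nlinarith [mul_nonneg (show (0:ℤ) ≤ r0 - (3 * s + 1) by omega)
          (show (0:ℤ) ≤ r0 + 3 * s - 4 by omega), sq_nonneg (s - 1)]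
      have h8 : 0 ≤ (k - 1) * (r0 * (r0 + 1) + 12 - 6 * s - 6 * r0) := mul_nonneg (by omega) h7
      nlinarith
  nlinarith

lemma arithB_big (J D r t s d P Q S : ℤ) (hJ : 2 ≤ J) (hD : 2 ≤ D) (hr : 1 ≤ r)
    (hrt : r ≤ t) (hs : 1 ≤ s) (hd : 1 ≤ d) (hv : s * d + 1 ≤ J * r)
    (hQ : 2 * (r * t) ≤ 2 * Q + (r * r - r)) (hQ0 : 0 ≤ Q)
    (hS : D * ((J + 1) * J) ≤ 6 * S) (hP : Q * S ≤ P) :
    (t + s - 2) * D ≤ P := by
  obtain ⟨w, hw, rfl⟩ : ∃ w, 0 ≤ w ∧ t = r + w := ⟨t - r, by omega, by ring⟩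
  have h1 : s + 1 ≤ J * r := by nlinarith
  have h2 : r * (r + 1 + 2 * w) ≤ 2 * Q := by nlinarith
  have h3 : Q * (D * ((J + 1) * J)) ≤ 6 * P := by
    have : Q * (D * ((J + 1) * J)) ≤ Q * (6 * S) := mul_le_mul_of_nonneg_left hS hQ0
    linarith
  have hJJ : 0 ≤ (J + 1) * J := mul_nonneg (by omega) (by omega)
  have hDJ : 0 ≤ D * ((J + 1) * J) := mul_nonneg (by omega) hJJ
  have h4 : (r * (r + 1 + 2 * w)) * (D * ((J + 1) * J)) ≤ 12 * P := by
    have := mul_le_mul_of_nonneg_right h2 hDJ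
    linarith
  have h5 : 12 * (r + w + J * r - 3) ≤ (r * (r + 1 + 2 * w)) * ((J + 1) * J) := by
    have h8 : 6 ≤ (J + 1) * J := by nlinarith
    have h9 : 6 ≤ (J + 1) * J * r := by nlinarith
    have h10 : 0 ≤ w * (2 * ((J + 1) * J * r) - 12) := mul_nonneg hw (by linarith)
    have h11 : 0 ≤ (J + 1) * r * (J * (r + 1) - 12) + 36 := by
      rcases lt_or_ge J 6 with hJ6 | hJ6
      · have hJ' : J = 2 ∨ J = 3 ∨ J = 4 ∨ J = 5 := by omega
        rcases hJ' with rfl | rfl | rfl | rfl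
        · have h12 : 0 ≤ (r - 2) * (r - 3) := by
            rcases lt_or_ge r 3 with h | h
            · have : 0 ≤ (2 - r) * (3 - r) := mul_nonneg (by omega) (by omega)
              linarith
            · exact mul_nonneg (by omega) (by omega)
          nlinarith
        · nlinarith [sq_nonneg (r - 1)]
        · nlinarith [sq_nonneg (r - 1)]
        · nlinarith [sq_nonneg (r - 1)]
      · have h12 : 12 ≤ J * (r + 1) := by nlinarith
        have h13 : 0 ≤ (J + 1) * r * (J * (r + 1) - 12) :=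
          mul_nonneg (mul_nonneg (by omega) (by omega)) (by linarith)
        linarith
    nlinarith
  have h6 : 12 * (r + w + s - 2) ≤ (r * (r + 1 + 2 * w)) * ((J + 1) * J) := by linarith
  have h7 := mul_le_mul_of_nonneg_right h6 (show (0 : ℤ) ≤ D by omega)
  nlinarith

end Pool.Agent.Helper33.Eliahou
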