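import Mathlib

namespace Pool.Agent.Helper33.Eliahou

/-- Membership in the submonoid generated by `m` and `G`. -/
def InA (m : ℕ) (G : Finset ℕ) (z : ℕ) : Prop :=
  ∃ (j : ℕ) (M : Multiset ℕ), (∀ v ∈ M, v ∈ G) ∧ z = M.sum + j * m

lemma InA.zero (m : ℕ) (G : Finset ℕ) : InA m G 0 := ⟨0, 0, by simp, by simp⟩

lemma InA.add {m : ℕ} {G : Finset ℕ} {y z : ℕ} (hy : InA m G y) (hz : InA m G z) :
    InA m G (y + z) := by
  obtain ⟨j, M, hM, rfl⟩ := hy
  obtain ⟨k, N, hN, rfl⟩ := hz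
  refine ⟨j + k, M + N, ?_, ?_⟩
  · intro v hv
    rcases Multiset.mem_add.1 hv with h | h
    · exact hM v h
    · exact hN v h
  · rw [Multiset.sum_add]; ring

lemma InA.gen {m : ℕ} {G : Finset ℕ} {v : ℕ} (hv : v ∈ G) : InA m G v :=
  ⟨0, {v}, by simpa using hv, by simp⟩

lemma InA.mul (m : ℕ) (G : Finset ℕ) (j : ℕ) : InA m G (j * m) :=
  ⟨j, 0, by simp, by simp⟩

lemma InA.add_mul {m : ℕ} {G : Finset ℕ} {y : ℕ} (hy : InA m G y) (j : ℕ) :
    InA m G (y + j * m) := hy.add (InA.mul m G j)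

lemma InA.mono {m : ℕ} {G G' : Finset ℕ} (h : G ⊆ G') {y : ℕ} (hy : InA m G y) : InA m G' y := by
  obtain ⟨j, M, hM, rfl⟩ := hy
  exact ⟨j, M, fun v hv => h (hM v hv), rfl⟩

lemma InA.multiset_sum {m : ℕ} {G : Finset ℕ} {M : Multiset ℕ} (hM : ∀ v ∈ M, v ∈ G) :
    InA m G M.sum := ⟨0, M, hM, by simp⟩

/-- Apéry elements below `c + m`. -/
def IsAp (m c : ℕ) (G : Finset ℕ) (y : ℕ) : Prop :=
  InA m G y ∧ y < c + m ∧ ∀ z, InA m G z → z + m ≠ y

lemma IsAp.of_add {m c : ℕ} {G : Finset ℕ} {u v : ℕ} (h : IsAp m c G (u + v))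
    (hu : InA m G u) (hv : InA m G v) : IsAp m c G u := by
  refine ⟨hu, by have := h.2.1; omega, ?_⟩
  intro z hz hzu
  apply h.2.2 (z + v) (hz.add hv)
  omega

lemma isAp_zero {m c : ℕ} {G : Finset ℕ} (hm : 0 < m) : IsAp m c G 0 :=
  ⟨InA.zero m G, by omega, fun z _ h => by omega⟩

lemma IsAp.exists_multiset {m c : ℕ} {G : Finset ℕ} {y : ℕ} (h : IsAp m c G y) :
    ∃ M : Multiset ℕ, (∀ v ∈ M, v ∈ G) ∧ y = M.sum := by
  obtain ⟨⟨j, M, hM, hy⟩, -, h3⟩ := h
  rcases Nat.eq_zero_or_pos j with rfl | hj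
  · exact ⟨M, hM, by simpa using hy⟩
  · exfalso
    obtain ⟨i, rfl⟩ : ∃ i, j = i + 1 := ⟨j - 1, by omega⟩
    apply h3 (M.sum + i * m) ⟨i, M, hM, rfl⟩
    rw [hy]; ring

lemma IsAp.exists_gen {m c : ℕ} {G : Finset ℕ} {y : ℕ} (h : IsAp m c G y) (hy0 : y ≠ 0) :
    ∃ v ∈ G, v ≤ y ∧ InA m G (y - v) := by
  obtain ⟨M, hM, hy⟩ := h.exists_multiset
  have hne : M ≠ 0 := by
    rintro rfl; simp at hy; exact hy0 hy
  obtain ⟨v, hv⟩ := Multiset.exists_mem_of_ne_zero hne
  obtain ⟨N, rfl⟩ := Multiset.exists_cons_of_mem hv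
  rw [Multiset.sum_cons] at hy
  refine ⟨v, hM v hv, by omega, ?_⟩
  have : y - v = N.sum := by omega
  rw [this]
  exact InA.multiset_sum (fun w hw => hM w (Multiset.mem_cons_of_mem hw))

/-- The number of `n` with `y + n * m < c`. -/
def dep (m c y : ℕ) : ℕ := (c - y + (m - 1)) / m

lemma lt_dep_iff {m c y n : ℕ} (hm : 0 < m) : n < dep m c y ↔ y + n * m < c := by
  unfold dep
  rw [← Nat.succ_le_iff, Nat.le_div_iff_mul_le hm, Nat.succ_mul]
  omega

lemma le_add_dep {m c : ℕ} (hm : 0 < m) (y : ℕ) : c ≤ y + dep m c y * m := by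
  by_contra h
  push Not at h
  exact lt_irrefl _ ((lt_dep_iff hm).2 h)

lemma add_dep_lt {m c y : ℕ} (hm : 0 < m) (hy : y < c + m) : y + dep m c y * m < c + m := by
  rcases Nat.eq_zero_or_pos (dep m c y) with h | h
  · rw [h]; omega
  · obtain ⟨n, hn⟩ : ∃ n, dep m c y = n + 1 := ⟨dep m c y - 1, by omega⟩
    have h1 : n < dep m c y := by omega
    rw [lt_dep_iff hm] at h1
    rw [hn, Nat.succ_mul]
    omega

lemma dep_le_iff {m c y n : ℕ} (hm : 0 < m) : dep m c y ≤ n ↔ c ≤ y + n * m := by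
  rw [← not_lt, ← not_lt, lt_dep_iff hm]

lemma dep_add_dep {m c u v : ℕ} (hm : 0 < m) (h : u + v < c + m) :
    dep m c 0 ≤ dep m c u + dep m c v + 1 := by
  rw [dep_le_iff hm]
  have h1 := le_add_dep (c := c) hm u
  have h2 := le_add_dep (c := c) hm v
  have : (dep m c u + dep m c v + 1) * m = dep m c u * m + dep m c v * m + m := by ring
  rw [this]
  omega

/-- The generators which can be removed from `y`. -/
def gens (m : ℕ) (G : Finset ℕ) (y : ℕ) : Set ℕ :=
  {v | v ∈ G ∧ 0 < v ∧ v ≤ y ∧ InA m G (y - v)}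

open Classical in
/-- Greedy factorisation: repeatedly remove the smallest possible generator. -/
noncomputable def fac (m : ℕ) (G : Finset ℕ) (y : ℕ) : Multiset ℕ :=
  if h : (gens m G y).Nonempty then
    sInf (gens m G y) ::ₘ fac m G (y - sInf (gens m G y))
  else 0
termination_by y
decreasing_by
  have := Nat.sInf_mem h
  have h1 := this.2.1
  have h2 := this.2.2.1
  omega

lemma fac_zero (m : ℕ) (G : Finset ℕ) : fac m G 0 = 0 := by
  rw [fac]
  rw [dif_neg]
  rintro ⟨v, -, h1, h2, -⟩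
  omega

lemma fac_unique {m : ℕ} {G : Finset ℕ} (hG : ∀ v ∈ G, 0 < v) {y v : ℕ}
    (hv : v ∈ G) (hvy : v ≤ y) (hA : InA m G (y - v))
    (hmin : ∀ w, w ∈ G → w ≤ y → InA m G (y - w) → v ≤ w) :
    fac m G y = v ::ₘ fac m G (y - v) := by
  have hmem : v ∈ gens m G y := ⟨hv, hG v hv, hvy, hA⟩
  have hf : sInf (gens m G y) = v := by
    apply le_antisymm
    · exact Nat.sInf_le hmem
    · obtain ⟨h1, h2, h3, h4⟩ := Nat.sInf_mem (⟨v, hmem⟩ : (gens m G y).Nonempty)
      exact hmin _ h1 h3 h4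
  rw [fac, dif_pos ⟨v, hmem⟩, hf]

/-- Unfolding of `fac` at a nonzero Apéry element. -/
lemma fac_unfold {m c : ℕ} {G : Finset ℕ} (hG : ∀ v ∈ G, 0 < v) {y : ℕ} (h : IsAp m c G y)
    (hy0 : y ≠ 0) :
    ∃ v, (v ∈ G ∧ 0 < v ∧ v ≤ y ∧ InA m G (y - v)) ∧
      (∀ w, w ∈ G → w ≤ y → InA m G (y - w) → v ≤ w) ∧
      fac m G y = v ::ₘ fac m G (y - v) := by
  have hex : (gens m G y).Nonempty := by
    obtain ⟨v, hv, h1, h2⟩ := h.exists_gen hy0
    exact ⟨v, hv, hG v hv, h1, h2⟩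
  have hs := Nat.sInf_mem hex
  have hmin : ∀ w, w ∈ G → w ≤ y → InA m G (y - w) → sInf (gens m G y) ≤ w :=
    fun w hw h1 h2 => Nat.sInf_le ⟨hw, hG w hw, h1, h2⟩
  exact ⟨_, hs, hmin, fac_unique hG hs.1 hs.2.2.1 hs.2.2.2 hmin⟩

lemma fac_spec {m c : ℕ} {G : Finset ℕ} (hG : ∀ v ∈ G, 0 < v) :
    ∀ y, IsAp m c G y → (fac m G y).sum = y ∧ (∀ v ∈ fac m G y, v ∈ G) := by
  intro y
  induction y using Nat.strong_induction_on with
  | _ y ih =>
    intro h
    by_cases hy0 : y = 0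
    · subst hy0
      rw [fac_zero]; simp
    · obtain ⟨v, ⟨hv, hv0, hvy, hA⟩, -, hf⟩ := fac_unfold hG h hy0
      have hAp : IsAp m c G (y - v) := by
        have h' : IsAp m c G ((y - v) + v) := by rwa [Nat.sub_add_cancel hvy]
        exact h'.of_add hA (InA.gen hv)
      obtain ⟨h1, h2⟩ := ih (y - v) (by omega) hAp
      rw [hf]
      refine ⟨by rw [Multiset.sum_cons, h1]; omega, ?_⟩
      intro w hw
      rcases Multiset.mem_cons.1 hw with rfl | hw
      · exact hv
      · exact h2 w hw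

/-- The greedy factorisations form an order ideal. -/
lemma fac_erase {m c : ℕ} {G : Finset ℕ} (hG : ∀ v ∈ G, 0 < v) :
    ∀ y, IsAp m c G y → ∀ v ∈ fac m G y,
      v ≤ y ∧ IsAp m c G (y - v) ∧ fac m G (y - v) = (fac m G y).erase v := by
  intro y
  induction y using Nat.strong_induction_on with
  | _ y ih =>
    intro h v hv
    have hy0 : y ≠ 0 := by
      rintro rfl
      rw [fac_zero] at hv; simp at hv
    obtain ⟨v1, ⟨hv1, hv10, hv1y, hA⟩, hmin, hf⟩ := fac_unfold hG h hy0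
    have hAp : IsAp m c G (y - v1) := by
      have h' : IsAp m c G ((y - v1) + v1) := by rwa [Nat.sub_add_cancel hv1y]
      exact h'.of_add hA (InA.gen hv1)
    by_cases hvv : v = v1
    · subst hvv
      refine ⟨hv1y, hAp, ?_⟩
      rw [hf, Multiset.erase_cons_head]
    · have hv' : v ∈ fac m G (y - v1) := by
        rw [hf] at hv
        rcases Multiset.mem_cons.1 hv with h1 | h1
        · exact absurd h1 hvv
        · exact h1
      obtain ⟨h1, h2, h3⟩ := ih (y - v1) (by omega) hAp v hv'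
      have hvG : v ∈ G := (fac_spec hG _ hAp).2 v hv'
      have hA2 : InA m G (y - v - v1) := by
        have := h2.1
        rwa [show y - v1 - v = y - v - v1 by omega] at this
      have hAv : InA m G (y - v) := by
        have := hA2.add (InA.gen hv1)
        rwa [show y - v - v1 + v1 = y - v by omega] at this
      refine ⟨by omega, ?_, ?_⟩
      · have h' : IsAp m c G ((y - v) + v) := by rwa [Nat.sub_add_cancel (by omega)]
        exact h'.of_add hAv (InA.gen hvG)
      · have hu : fac m G (y - v) = v1 ::ₘ fac m G (y - v - v1) := by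
          apply fac_unique hG hv1 (by omega) hA2
          intro w hw hwy hAw
          apply hmin w hw (by omega)
          have := hAw.add (InA.gen hvG)
          rwa [show y - v - w + v = y - w by omega] at this
        rw [hu, hf, Multiset.erase_cons_tail _ (fun e => hvv e.symm), ← h3]
        congr 2
        omega

/-- Closure of the family of greedy factorisations under sub-multisets. -/
lemma fac_sub {m c : ℕ} {G : Finset ℕ} (hG : ∀ v ∈ G, 0 < v) (L : Multiset ℕ) :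
    ∀ (K : Multiset ℕ) (y : ℕ), IsAp m c G y → fac m G y = K + L →
      IsAp m c G K.sum ∧ fac m G K.sum = K := by
  induction L using Multiset.induction_on with
  | empty =>
    intro K y h hf
    rw [add_zero] at hf
    have := (fac_spec hG y h).1
    rw [hf] at this
    rw [this]
    exact ⟨h, hf⟩
  | cons v L ih =>
    intro K y h hf
    have hv : v ∈ fac m G y := by rw [hf]; simp
    obtain ⟨h1, h2, h3⟩ := fac_erase hG y h v hv
    apply ih K (y - v) h2
    rw [h3, hf, Multiset.add_cons, Multiset.erase_cons_head]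

end Pool.Agent.Helper33.Eliahou
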