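import Mathlib
import Pool.Agent.Helper33.EliahouBase

namespace Pool.Agent.Helper33.Eliahou

open Classical in
/-- The finite set of Apéry elements below `c + m`. -/
noncomputable def Ap (m c : ℕ) (G : Finset ℕ) : Finset ℕ :=
  (Finset.range (c + m)).filter (IsAp m c G)

lemma mem_Ap {m c : ℕ} {G : Finset ℕ} {y : ℕ} : y ∈ Ap m c G ↔ IsAp m c G y := by
  classical
  unfold Ap
  rw [Finset.mem_filter, Finset.mem_range]
  exact ⟨fun h => h.2, fun h => ⟨h.2.1, h⟩⟩

lemma ap_unique_aux {m c : ℕ} {G : Finset ℕ} {y y' j j' : ℕ} (hy : IsAp m c G y)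
    (hy' : IsAp m c G y') (h : y + j * m = y' + j' * m) : j' ≤ j := by
  by_contra hlt
  push Not at hlt
  obtain ⟨i, rfl⟩ : ∃ i, j' = j + i + 1 := ⟨j' - j - 1, by omega⟩
  apply hy.2.2 (y' + i * m) (hy'.1.add_mul i)
  have : (j + i + 1) * m = j * m + i * m + m := by ring
  rw [this] at h
  omega

lemma ap_unique {m c : ℕ} {G : Finset ℕ} {y y' j j' : ℕ} (hy : IsAp m c G y)
    (hy' : IsAp m c G y') (h : y + j * m = y' + j' * m) : y = y' ∧ j = j' := by
  have h1 := ap_unique_aux hy hy' h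
  have h2 := ap_unique_aux hy' hy h.symm
  have h3 : j = j' := le_antisymm h2 h1
  subst h3
  exact ⟨by omega, rfl⟩

lemma base_exists {m c : ℕ} {G : Finset ℕ} (hm : 0 < m) :
    ∀ z, InA m G z → z < c + m → ∃ y j, IsAp m c G y ∧ z = y + j * m := by
  intro z
  induction z using Nat.strong_induction_on with
  | _ z ih =>
    intro hz hlt
    by_cases h : ∃ w, InA m G w ∧ w + m = z
    · obtain ⟨w, hw, hwz⟩ := h
      obtain ⟨y, j, hy, hj⟩ := ih w (by omega) hw (by omega)
      exact ⟨y, j + 1, hy, by rw [← hwz, hj]; ring⟩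
    · push Not at h
      exact ⟨z, 0, ⟨hz, hlt, h⟩, by simp⟩

open Classical in
lemma card_below {m c : ℕ} {G : Finset ℕ} (hm : 0 < m) :
    ((Finset.range c).filter (InA m G)).card = ∑ y ∈ Ap m c G, dep m c y := by
  have h1 : ∑ y ∈ Ap m c G, dep m c y
      = ((Ap m c G).sigma (fun y => Finset.range (dep m c y))).card := by
    rw [Finset.card_sigma]; simp
  rw [h1]
  symm
  apply Finset.card_bij (fun (p : Σ _ : ℕ, ℕ) _ => p.1 + p.2 * m)
  · rintro ⟨y, j⟩ hp
    rw [Finset.mem_sigma, mem_Ap, Finset.mem_range, lt_dep_iff hm] at hp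
    rw [Finset.mem_filter, Finset.mem_range]
    exact ⟨hp.2, hp.1.1.add_mul j⟩
  · rintro ⟨y, j⟩ hp ⟨y', j'⟩ hp' h
    rw [Finset.mem_sigma, mem_Ap] at hp hp'
    obtain ⟨h1, h2⟩ := ap_unique hp.1 hp'.1 h
    simp only at h1 h2
    subst h1; subst h2; rfl
  · intro z hz
    rw [Finset.mem_filter, Finset.mem_range] at hz
    obtain ⟨y, j, hy, hj⟩ := base_exists (c := c) hm z hz.2 (by omega)
    refine ⟨⟨y, j⟩, ?_, hj.symm⟩
    rw [Finset.mem_sigma, mem_Ap, Finset.mem_range, lt_dep_iff hm]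
    exact ⟨hy, by rw [← hj]; exact hz.1⟩

lemma window_unique {m c y j : ℕ} (hm : 0 < m) (h1 : c ≤ y + j * m) (h2 : y + j * m < c + m) :
    y + j * m = y + dep m c y * m ∨ y ≥ c + m := by
  by_cases hy : y < c + m
  · left
    have h3 := (dep_le_iff (m := m) (c := c) (y := y) (n := j) hm).2 h1
    rcases Nat.eq_or_lt_of_le h3 with h | h
    · rw [h]
    · exfalso
      have h4 := le_add_dep (c := c) hm y
      have h5 : (dep m c y + 1) * m ≤ j * m := Nat.mul_le_mul_right m h
      rw [Nat.succ_mul] at h5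
      omega
  · right; omega

open Classical in
lemma card_window {m c : ℕ} {G : Finset ℕ} (hm : 0 < m) :
    ((Finset.Ico c (c + m)).filter (InA m G)).card = (Ap m c G).card := by
  symm
  apply Finset.card_bij (fun y _ => y + dep m c y * m)
  · intro y hy
    rw [mem_Ap] at hy
    rw [Finset.mem_filter, Finset.mem_Ico]
    exact ⟨⟨le_add_dep hm y, add_dep_lt hm hy.2.1⟩, hy.1.add_mul _⟩
  · intro y hy y' hy' h
    rw [mem_Ap] at hy hy'
    exact (ap_unique hy hy' h).1
  · intro z hz
    rw [Finset.mem_filter, Finset.mem_Ico] at hz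
    obtain ⟨y, j, hy, hj⟩ := base_exists (c := c) hm z hz.2 (by omega)
    refine ⟨y, mem_Ap.2 hy, ?_⟩
    rcases window_unique (m := m) (c := c) (y := y) (j := j) hm (by omega) (by omega) with h | h
    · rw [hj, h]
    · have := hy.2.1; omega

/-- length of the greedy factorisation -/
noncomputable def len (m : ℕ) (G : Finset ℕ) (y : ℕ) : ℕ := Multiset.card (fac m G y)

open Classical in
/-- generators by which the greedy factorisation of `y` can be extended -/
noncomputable def ext (m c : ℕ) (G : Finset ℕ) (y : ℕ) : Finset ℕ :=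
  G.filter (fun v => IsAp m c G (y + v) ∧ fac m G (y + v) = v ::ₘ fac m G y)

lemma mem_ext {m c : ℕ} {G : Finset ℕ} {y v : ℕ} :
    v ∈ ext m c G y ↔ v ∈ G ∧ IsAp m c G (y + v) ∧ fac m G (y + v) = v ::ₘ fac m G y := by
  classical
  unfold ext
  rw [Finset.mem_filter]

lemma card_ext_le {m c : ℕ} {G : Finset ℕ} {y : ℕ} : (ext m c G y).card ≤ G.card := by
  classical
  unfold ext
  exact Finset.card_filter_le _ _

lemma mem_ext_sub {m c : ℕ} {G : Finset ℕ} (hG : ∀ v ∈ G, 0 < v) {y v : ℕ}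
    (hy : IsAp m c G y) (hv : v ∈ fac m G y) : v ∈ ext m c G (y - v) := by
  obtain ⟨h1, h2, h3⟩ := fac_erase hG y hy v hv
  rw [mem_ext, Nat.sub_add_cancel h1]
  refine ⟨(fac_spec hG y hy).2 v hv, hy, ?_⟩
  rw [h3, Multiset.cons_erase hv]

lemma len_ext {m c : ℕ} {G : Finset ℕ} {y v : ℕ} (hv : v ∈ ext m c G y) :
    len m G (y + v) = len m G y + 1 := by
  unfold len
  rw [(mem_ext.1 hv).2.2, Multiset.card_cons]

lemma len_eq_zero {m c : ℕ} {G : Finset ℕ} (hG : ∀ v ∈ G, 0 < v) {y : ℕ}
    (hy : IsAp m c G y) : len m G y = 0 ↔ y = 0 := by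
  constructor
  · intro h
    have h1 : fac m G y = 0 := Multiset.card_eq_zero.1 h
    have := (fac_spec hG y hy).1
    rw [h1] at this
    simpa using this.symm
  · rintro rfl
    unfold len
    rw [fac_zero]; simp

lemma sum_count_le (s : Finset ℕ) (M : Multiset ℕ) :
    ∑ v ∈ s, M.count v ≤ Multiset.card M := by
  classical
  calc ∑ v ∈ s, M.count v ≤ ∑ v ∈ s ∪ M.toFinset, M.count v := by
        apply Finset.sum_le_sum_of_subset
        exact Finset.subset_union_left
    _ = Multiset.card M := by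
        apply Multiset.sum_count_eq_card
        intro a ha
        exact Finset.mem_union_right _ (Multiset.mem_toFinset.2 ha)

lemma sum_le_sum_inj {α β : Type*} [DecidableEq β] (s : Finset α) (t : Finset β) (f : α → ℕ)
    (g : β → ℕ) (i : α → β) (hi : ∀ a ∈ s, i a ∈ t) (hinj : ∀ a ∈ s, ∀ b ∈ s, i a = i b → a = b)
    (h : ∀ a ∈ s, f a ≤ g (i a)) : ∑ a ∈ s, f a ≤ ∑ b ∈ t, g b := by
  calc ∑ a ∈ s, f a ≤ ∑ a ∈ s, g (i a) := Finset.sum_le_sum h
    _ = ∑ b ∈ s.image i, g b := by
        rw [Finset.sum_image]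
        intro a ha b hb hab
        exact hinj a ha b hb hab
    _ ≤ ∑ b ∈ t, g b := by
        apply Finset.sum_le_sum_of_subset
        intro b hb
        obtain ⟨a, ha, rfl⟩ := Finset.mem_image.1 hb
        exact hi a ha

/-- Double counting of the pairs (element, removed generator). -/
lemma double_count {m c : ℕ} {G : Finset ℕ} (hG : ∀ v ∈ G, 0 < v) :
    ∑ y ∈ (Ap m c G).filter (fun y => 2 ≤ len m G y),
        ((fac m G y).map (fun v => dep m c (y - v))).sum
      ≤ ∑ u ∈ (Ap m c G).filter (fun y => 1 ≤ len m G y),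
        ((ext m c G u).card + len m G u) * dep m c u := by
  classical
  have h1 : ∀ y ∈ (Ap m c G).filter (fun y => 2 ≤ len m G y),
      ((fac m G y).map (fun v => dep m c (y - v))).sum
        = ∑ v ∈ G, (fac m G y).count v * dep m c (y - v) := by
    intro y hy
    rw [Finset.mem_filter, mem_Ap] at hy
    rw [Finset.sum_multiset_map_count]
    simp only [smul_eq_mul]
    apply Finset.sum_subset
    · intro v hv
      exact (fac_spec hG y hy.1).2 v (Multiset.mem_toFinset.1 hv)
    · intro v _ hv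
      rw [Multiset.mem_toFinset] at hv
      rw [Multiset.count_eq_zero_of_notMem hv, zero_mul]
  rw [Finset.sum_congr rfl h1, Finset.sum_comm]
  have h2 : ∀ u ∈ (Ap m c G).filter (fun y => 1 ≤ len m G y),
      ∑ v ∈ G, (if v ∈ ext m c G u then ((fac m G u).count v + 1) * dep m c u else 0)
      ≤ ((ext m c G u).card + len m G u) * dep m c u := by
    intro u _
    rw [← Finset.sum_filter]
    have h3 : G.filter (fun v => v ∈ ext m c G u) = ext m c G u := by
      ext v
      rw [Finset.mem_filter]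
      exact ⟨fun h => h.2, fun h => ⟨(mem_ext.1 h).1, h⟩⟩
    rw [h3, ← Finset.sum_mul]
    apply Nat.mul_le_mul_right
    rw [Finset.sum_add_distrib, Finset.sum_const, smul_eq_mul, mul_one, add_comm]
    apply Nat.add_le_add_left
    exact sum_count_le _ _
  refine le_trans ?_ (Finset.sum_le_sum h2)
  rw [Finset.sum_comm (s := (Ap m c G).filter (fun y => 1 ≤ len m G y))]
  apply Finset.sum_le_sum
  intro v hvG
  -- for fixed v
  rw [← Finset.sum_filter]
  have h4 : ∑ y ∈ (Ap m c G).filter (fun y => 2 ≤ len m G y),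
      (fac m G y).count v * dep m c (y - v)
      = ∑ y ∈ ((Ap m c G).filter (fun y => 2 ≤ len m G y)).filter (fun y => v ∈ fac m G y),
      (fac m G y).count v * dep m c (y - v) := by
    symm
    apply Finset.sum_filter_of_ne
    intro y _ hne
    by_contra hv
    rw [Multiset.count_eq_zero_of_notMem hv, zero_mul] at hne
    exact hne rfl
  rw [h4]
  apply sum_le_sum_inj _ _ _ _ (fun y => y - v)
  · intro y hy
    simp only [Finset.mem_filter, mem_Ap] at hy ⊢
    obtain ⟨⟨hyA, hyl⟩, hvy⟩ := hy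
    obtain ⟨g1, g2, g3⟩ := fac_erase hG y hyA v hvy
    refine ⟨⟨g2, ?_⟩, mem_ext_sub hG hyA hvy⟩
    unfold len at hyl ⊢
    rw [g3, Multiset.card_erase_of_mem hvy, Nat.pred_eq_sub_one]
    omega
  · intro y hy y' hy' h
    simp only [Finset.mem_filter, mem_Ap] at hy hy'
    have g1 := (fac_erase hG y hy.1.1 v hy.2).1
    have g2 := (fac_erase hG y' hy'.1.1 v hy'.2).1
    omega
  · intro y hy
    simp only [Finset.mem_filter, mem_Ap] at hy
    obtain ⟨⟨hyA, hyl⟩, hvy⟩ := hy
    obtain ⟨g1, g2, g3⟩ := fac_erase hG y hyA v hvy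
    rw [g3, Multiset.count_erase_self]
    have : 0 < (fac m G y).count v := Multiset.count_pos.2 hvy
    rw [Nat.sub_add_cancel this]

end Pool.Agent.Helper33.Eliahou
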