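import Mathlib

namespace Pool.Agent.Helper33.Eliahou

/-- The numerical semigroup `⟨g 0, …, g (l-1)⟩_c`: generated by `g 0, …, g (l-1)` together with
all integers `≥ c`. -/
def sg (g : ℕ → ℕ) (l c : ℕ) : AddSubmonoid ℕ :=
  AddSubmonoid.closure ({x | ∃ i < l, x = g i} ∪ {x | c ≤ x})

/-- `x` is a sum of two nonzero elements of `S`. -/
def IsSum (S : AddSubmonoid ℕ) (x : ℕ) : Prop :=
  ∃ y ∈ S, ∃ z ∈ S, y ≠ 0 ∧ z ≠ 0 ∧ y + z = x

/-- The Eliahou number `k * l + q * r - c` of `⟨g 0, …, g (l-1)⟩_c`, relative to `c`, where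
`m = g 0`, `k` counts the elements below `c`, `r` counts the `x` in `[c, c + m)` which are not a
sum of two nonzero elements, and `q = ⌈c / m⌉`. -/
noncomputable def eliahou (g : ℕ → ℕ) (l c : ℕ) : ℤ :=
  ({x | x ∈ sg g l c ∧ x < c}.ncard : ℤ) * l
    + ⌈(c : ℚ) / (g 0 : ℚ)⌉ * ({x | c ≤ x ∧ x < c + g 0 ∧ ¬ IsSum (sg g l c) x}.ncard : ℤ)
    - c

end Pool.Agent.Helper33.Eliahou
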