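import Mathlib
import Pool.Agent.Helper33.EliahouCount

namespace Pool.Agent.Helper33.Eliahou

lemma depth_ineq {m c y : ℕ} (hm : 0 < m) (hy : y < c + m) (M : Multiset ℕ) (hM : M.sum = y)
    (h2 : 2 ≤ Multiset.card M) :
    (Multiset.card M - 1) * dep m c y + dep m c 0
      ≤ (M.map (fun v => dep m c (y - v))).sum + (Multiset.card M - 2)
        + (if c + m ≤ y + dep m c y * m + (dep m c 0 * m - c) then 1 else 0) := by
  have hle : ∀ v ∈ M, v ≤ y := by
    intro v hv
    rw [← hM]
    exact Multiset.le_sum_of_mem hv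
  have h3 : (M.map (fun v => y - v)).sum + y = Multiset.card M * y := by
    have : (M.map (fun v => y - v)).sum + (M.map (fun v => v)).sum = Multiset.card M * y := by
      rw [← Multiset.sum_map_add]
      rw [Multiset.map_congr rfl (fun v hv => Nat.sub_add_cancel (hle v hv))]
      simp
    rwa [Multiset.map_id', hM] at this
  have h4 : Multiset.card M * c
      ≤ (M.map (fun v => y - v)).sum + (M.map (fun v => dep m c (y - v))).sum * m := by
    rw [← Multiset.sum_map_mul_right, ← Multiset.sum_map_add]
    have := Multiset.card_nsmul_le_sum (s := M.map (fun v => y - v + dep m c (y - v) * m)) (a := c)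
    rw [Multiset.card_map, smul_eq_mul] at this
    apply this
    intro x hx
    obtain ⟨v, hv, rfl⟩ := Multiset.mem_map.1 hx
    exact le_add_dep hm _
  have h5 := le_add_dep (c := c) hm y
  have h6 := add_dep_lt hm hy
  have h7 := le_add_dep (c := c) hm 0
  have h8 : 0 + dep m c 0 * m < c + m := add_dep_lt hm (by omega)
  rw [Nat.zero_add] at h7 h8
  obtain ⟨n, hn⟩ : ∃ n, Multiset.card M = n + 2 := ⟨Multiset.card M - 2, by omega⟩
  rw [hn] at h3 h4 ⊢
  set S := (M.map (fun v => dep m c (y - v))).sum
  set d := dep m c y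
  set q := dep m c 0
  set U := (M.map (fun v => y - v)).sum
  have e1 : n + 2 - 1 = n + 1 := by omega
  have e2 : n + 2 - 2 = n := by omega
  rw [e1, e2]
  obtain ⟨r, hr⟩ : ∃ r, q * m = c + r := ⟨q * m - c, by omega⟩
  have hr' : q * m - c = r := by omega
  rw [hr']
  by_contra hcon
  push Not at hcon
  have hS0 : 0 ≤ n * (c + m - (y + d * m) - 1) := Nat.zero_le _
  obtain ⟨w, hw⟩ : ∃ w, y + d * m + w + 1 = c + m := ⟨c + m - (y + d * m) - 1, by omega⟩
  by_cases hT : c + m ≤ y + d * m + r
  · rw [if_pos hT] at hcon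
    have h9 : S + n + 2 ≤ (n + 1) * d + q := by omega
    have h10 := Nat.mul_le_mul_right m h9
    zify at *
    nlinarith [mul_nonneg (Int.natCast_nonneg n) (Int.natCast_nonneg w)]
  · rw [if_neg hT] at hcon
    have h9 : S + n + 1 ≤ (n + 1) * d + q := by omega
    have h10 := Nat.mul_le_mul_right m h9
    zify at *
    nlinarith [mul_nonneg (Int.natCast_nonneg n) (Int.natCast_nonneg w)]

open Classical in
lemma card_top {m c : ℕ} {G : Finset ℕ} (hm : 0 < m) :
    ((Ap m c G).filter
      (fun y => c + m ≤ y + dep m c y * m + (dep m c 0 * m - c))).card ≤ dep m c 0 * m - c := by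
  have h1 : (Finset.Ico (c + m - (dep m c 0 * m - c)) (c + m)).card ≤ dep m c 0 * m - c := by
    rw [Nat.card_Ico]; omega
  refine le_trans ?_ h1
  apply Finset.card_le_card_of_injOn (fun y => y + dep m c y * m)
  · intro y hy
    simp only [Finset.coe_filter, Set.mem_ofPred_eq, mem_Ap] at hy
    simp only [Finset.coe_Ico, Set.mem_Ico]
    have := add_dep_lt (c := c) hm hy.1.2.1
    omega
  · intro y hy y' hy' h
    simp only [Finset.coe_filter, Set.mem_ofPred_eq, mem_Ap] at hy hy'
    exact (ap_unique hy.1 hy'.1 h).1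

lemma card_len_one {m c : ℕ} {G : Finset ℕ} (hG : ∀ v ∈ G, 0 < v) :
    ((Ap m c G).filter (fun y => len m G y = 1)).card ≤ G.card := by
  classical
  apply Finset.card_le_card
  intro y hy
  rw [Finset.mem_filter, mem_Ap] at hy
  obtain ⟨v, hv⟩ := Multiset.card_eq_one.1 hy.2
  obtain ⟨h1, h2⟩ := fac_spec hG y hy.1
  rw [hv] at h1 h2
  rw [Multiset.sum_singleton] at h1
  rw [← h1]
  exact h2 v (by simp)

lemma filter_len_zero {m c : ℕ} {G : Finset ℕ} (hm : 0 < m) (hG : ∀ v ∈ G, 0 < v) :
    (Ap m c G).filter (fun y => len m G y = 0) = {0} := by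
  ext y
  rw [Finset.mem_filter, mem_Ap, Finset.mem_singleton]
  constructor
  · rintro ⟨h1, h2⟩
    exact (len_eq_zero hG h1).1 h2
  · rintro rfl
    exact ⟨isAp_zero hm, (len_eq_zero (c := c) hG (isAp_zero hm)).2 rfl⟩

lemma sum_split (m c : ℕ) (G : Finset ℕ) (f : ℕ → ℕ) :
    ∑ y ∈ Ap m c G, f y = ∑ y ∈ (Ap m c G).filter (fun y => len m G y = 0), f y
      + ∑ y ∈ (Ap m c G).filter (fun y => len m G y = 1), f y
      + ∑ y ∈ (Ap m c G).filter (fun y => 2 ≤ len m G y), f y := by
  classical
  rw [← Finset.sum_filter_add_sum_filter_not (Ap m c G) (fun y => len m G y = 0),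
    ← Finset.sum_filter_add_sum_filter_not ((Ap m c G).filter (fun y => ¬ len m G y = 0))
      (fun y => len m G y = 1), Finset.filter_filter, Finset.filter_filter, ← add_assoc]
  have g1 : (Ap m c G).filter (fun y => ¬ len m G y = 0 ∧ len m G y = 1)
      = (Ap m c G).filter (fun y => len m G y = 1) := by
    apply Finset.filter_congr; intro y _; omega
  have g2 : (Ap m c G).filter (fun y => ¬ len m G y = 0 ∧ ¬ len m G y = 1)
      = (Ap m c G).filter (fun y => 2 ≤ len m G y) := by
    apply Finset.filter_congr; intro y _; omega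
  rw [g1, g2]

/-- The main lower bound for the Eliahou number in terms of the order ideal of greedy
factorisations. -/
lemma main_bound {m c : ℕ} {G : Finset ℕ} (hm : 0 < m) (hG : ∀ v ∈ G, 0 < v) :
    dep m c 0 * (Ap m c G).card
      + ∑ u ∈ (Ap m c G).filter (fun y => 2 ≤ len m G y),
          (G.card - (ext m c G u).card) * dep m c u
      ≤ (1 + G.card) * ∑ y ∈ Ap m c G, dep m c y + (dep m c 0 * m - c)
        + ∑ y ∈ (Ap m c G).filter (fun y => 2 ≤ len m G y), (len m G y - 2) := by
  classical
  set n := G.card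
  set q := dep m c 0
  have hcard : (Ap m c G).card = 1 + ((Ap m c G).filter (fun y => len m G y = 1)).card
      + ((Ap m c G).filter (fun y => 2 ≤ len m G y)).card := by
    have := sum_split m c G (fun _ => 1)
    rw [filter_len_zero hm hG] at this
    simpa using this
  have hsum := sum_split m c G (fun y => dep m c y)
  rw [filter_len_zero hm hG, Finset.sum_singleton] at hsum
  -- (a)
  have ha : ∑ y ∈ (Ap m c G).filter (fun y => 2 ≤ len m G y),
        ((len m G y - 1) * dep m c y + q)
      ≤ ∑ y ∈ (Ap m c G).filter (fun y => 2 ≤ len m G y),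
          ((fac m G y).map (fun v => dep m c (y - v))).sum
        + ∑ y ∈ (Ap m c G).filter (fun y => 2 ≤ len m G y), (len m G y - 2)
        + (q * m - c) := by
    have h1 : ∑ y ∈ (Ap m c G).filter (fun y => 2 ≤ len m G y),
        ((len m G y - 1) * dep m c y + q)
      ≤ ∑ y ∈ (Ap m c G).filter (fun y => 2 ≤ len m G y),
          (((fac m G y).map (fun v => dep m c (y - v))).sum + (len m G y - 2)
            + (if c + m ≤ y + dep m c y * m + (q * m - c) then 1 else 0)) := by
      apply Finset.sum_le_sum
      intro y hy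
      rw [Finset.mem_filter, mem_Ap] at hy
      exact depth_ineq hm hy.1.2.1 _ (fac_spec hG y hy.1).1 hy.2
    have h2 : ∑ y ∈ (Ap m c G).filter (fun y => 2 ≤ len m G y),
        (if c + m ≤ y + dep m c y * m + (q * m - c) then 1 else 0) ≤ q * m - c := by
      rw [← Finset.sum_filter]
      simp only [Finset.sum_const, smul_eq_mul, mul_one]
      refine le_trans (Finset.card_le_card ?_) (card_top (G := G) (c := c) hm)
      apply Finset.filter_subset_filter
      exact Finset.filter_subset _ _
    simp only [Finset.sum_add_distrib] at h1 ⊢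
    omega
  have hb := double_count (m := m) (c := c) hG
  have hc : ∑ u ∈ (Ap m c G).filter (fun y => 1 ≤ len m G y),
        ((ext m c G u).card + len m G u) * dep m c u
      ≤ (n + 1) * ∑ y ∈ (Ap m c G).filter (fun y => len m G y = 1), dep m c y
        + ∑ u ∈ (Ap m c G).filter (fun y => 2 ≤ len m G y),
          ((ext m c G u).card + len m G u) * dep m c u := by
    rw [← Finset.sum_filter_add_sum_filter_not ((Ap m c G).filter (fun y => 1 ≤ len m G y))
      (fun y => len m G y = 1), Finset.filter_filter, Finset.filter_filter]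
    apply Nat.add_le_add
    · rw [Finset.mul_sum]
      have : (Ap m c G).filter (fun y => 1 ≤ len m G y ∧ len m G y = 1)
          = (Ap m c G).filter (fun y => len m G y = 1) := by
        apply Finset.filter_congr; intro y _; omega
      rw [this]
      apply Finset.sum_le_sum
      intro y hy
      rw [Finset.mem_filter] at hy
      rw [hy.2]
      exact Nat.mul_le_mul_right _ (Nat.add_le_add_right card_ext_le 1)
    · have : (Ap m c G).filter (fun y => 1 ≤ len m G y ∧ ¬ len m G y = 1)
          = (Ap m c G).filter (fun y => 2 ≤ len m G y) := by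
        apply Finset.filter_congr; intro y _; omega
      rw [this]
  -- rewrite sums over A2
  have e1 : ∑ y ∈ (Ap m c G).filter (fun y => 2 ≤ len m G y),
        ((len m G y - 1) * dep m c y + q)
      = ∑ y ∈ (Ap m c G).filter (fun y => 2 ≤ len m G y), (len m G y - 1) * dep m c y
        + ((Ap m c G).filter (fun y => 2 ≤ len m G y)).card * q := by
    rw [Finset.sum_add_distrib, Finset.sum_const, smul_eq_mul]
  have e2 : ∑ u ∈ (Ap m c G).filter (fun y => 2 ≤ len m G y),
          ((ext m c G u).card + len m G u) * dep m c u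
        + ∑ u ∈ (Ap m c G).filter (fun y => 2 ≤ len m G y),
          (n - (ext m c G u).card) * dep m c u
      = ∑ y ∈ (Ap m c G).filter (fun y => 2 ≤ len m G y), (len m G y - 1) * dep m c y
        + (n + 1) * ∑ y ∈ (Ap m c G).filter (fun y => 2 ≤ len m G y), dep m c y := by
    rw [← Finset.sum_add_distrib, Finset.mul_sum, ← Finset.sum_add_distrib]
    apply Finset.sum_congr rfl
    intro u hu
    rw [Finset.mem_filter] at hu
    have h1 : (ext m c G u).card ≤ n := card_ext_le
    rw [← add_mul, ← add_mul]
    congr 1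
    omega
  have h1 := card_len_one (m := m) (c := c) hG
  have h2 : ((Ap m c G).filter (fun y => len m G y = 1)).card * q ≤ n * q :=
    Nat.mul_le_mul_right q h1
  rw [hcard, hsum]
  have e3 : dep m c 0 = q := rfl
  rw [e3]
  set s1 := ∑ y ∈ (Ap m c G).filter (fun y => len m G y = 1), dep m c y
  set s2 := ∑ y ∈ (Ap m c G).filter (fun y => 2 ≤ len m G y), dep m c y
  set c1 := ((Ap m c G).filter (fun y => len m G y = 1)).card
  set c2 := ((Ap m c G).filter (fun y => 2 ≤ len m G y)).card
  nlinarith [ha, hb, hc, e1, e2, h2]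

end Pool.Agent.Helper33.Eliahou
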