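import Mathlib
import Pool.Agent.Helper33.EliahouIneq

namespace Pool.Agent.Helper33.Eliahou

lemma exists_nm {m c : ℕ} {G : Finset ℕ} :
    ∃ nm : ℕ → ℕ, ∀ y, IsAp m c G y → 3 ≤ len m G y →
      ∃ v ∈ fac m G y, nm y = y - v ∧
        ∀ w ∈ fac m G y, (ext m c G (nm y)).card ≤ (ext m c G (y - w)).card := by
  classical
  have h : ∀ y, ∃ u, IsAp m c G y → 3 ≤ len m G y →
      ∃ v ∈ fac m G y, u = y - v ∧
        ∀ w ∈ fac m G y, (ext m c G u).card ≤ (ext m c G (y - w)).card := by
    intro y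
    by_cases hy : 3 ≤ len m G y
    · have hne : (fac m G y).toFinset.Nonempty := by
        rw [Multiset.toFinset_nonempty]
        rintro h0
        unfold len at hy
        rw [h0] at hy
        simp at hy
      obtain ⟨v, hv, hmin⟩ := Finset.exists_min_image (fac m G y).toFinset
        (fun v => (ext m c G (y - v)).card) hne
      refine ⟨y - v, fun _ _ => ⟨v, Multiset.mem_toFinset.1 hv, rfl, ?_⟩⟩
      intro w hw
      exact hmin w (Multiset.mem_toFinset.2 hw)
    · exact ⟨0, fun _ h => absurd h hy⟩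
  choose nm hnm using h
  exact ⟨nm, hnm⟩

lemma exists_violation {m c : ℕ} {G : Finset ℕ} (hm : 0 < m) (hG : ∀ v ∈ G, 0 < v)
    (hE : (1 + G.card) * ∑ y ∈ Ap m c G, dep m c y + (dep m c 0 * m - c)
      < dep m c 0 * (Ap m c G).card) :
    ∃ u, IsAp m c G u ∧ 2 ≤ len m G u ∧ ∃ R ⊆ ext m c G u,
      (G.card - (ext m c G u).card) * dep m c u < (len m G u - 1) * R.card ∧
      ∀ v ∈ R, ∀ w ∈ fac m G (u + v), (ext m c G u).card ≤ (ext m c G (u + v - w)).card := by
  classical
  have hb := main_bound (m := m) (c := c) hm hG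
  obtain ⟨nm, hnm⟩ := exists_nm (m := m) (c := c) (G := G)
  have h1 : ∑ y ∈ (Ap m c G).filter (fun y => 2 ≤ len m G y), (len m G y - 2)
      = ∑ y ∈ (Ap m c G).filter (fun y => 3 ≤ len m G y), (len m G y - 2) := by
    symm
    apply Finset.sum_subset
    · intro y hy
      rw [Finset.mem_filter] at hy ⊢
      exact ⟨hy.1, by omega⟩
    · intro y hy hy'
      rw [Finset.mem_filter] at hy hy'
      have : ¬ 3 ≤ len m G y := fun h => hy' ⟨hy.1, h⟩
      omega
  have hmaps : ∀ y ∈ (Ap m c G).filter (fun y => 3 ≤ len m G y),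
      nm y ∈ (Ap m c G).filter (fun y => 2 ≤ len m G y) := by
    intro y hy
    rw [Finset.mem_filter, mem_Ap] at hy ⊢
    obtain ⟨v, hv, h2, -⟩ := hnm y hy.1 hy.2
    obtain ⟨g1, g2, g3⟩ := fac_erase hG y hy.1 v hv
    rw [h2]
    refine ⟨g2, ?_⟩
    have h3 := hy.2
    unfold len at h3 ⊢
    rw [g3, Multiset.card_erase_of_mem hv, Nat.pred_eq_sub_one]
    omega
  set R : ℕ → Finset ℕ := fun u =>
    (ext m c G u).filter (fun v => 3 ≤ len m G (u + v) ∧ nm (u + v) = u) with hR
  have h2 : ∑ y ∈ (Ap m c G).filter (fun y => 3 ≤ len m G y), (len m G y - 2)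
      ≤ ∑ u ∈ (Ap m c G).filter (fun y => 2 ≤ len m G y), (len m G u - 1) * (R u).card := by
    rw [← Finset.sum_fiberwise_of_maps_to hmaps]
    apply Finset.sum_le_sum
    intro u hu
    have h3 : ∀ y ∈ ((Ap m c G).filter (fun y => 3 ≤ len m G y)).filter (fun y => nm y = u),
        len m G y - 2 = len m G u - 1 ∧ y - u ∈ R u ∧ u ≤ y := by
      intro y hy
      rw [Finset.mem_filter, Finset.mem_filter, mem_Ap] at hy
      obtain ⟨⟨hyA, hyl⟩, hyu⟩ := hy
      obtain ⟨v, hv, h4, -⟩ := hnm y hyA hyl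
      obtain ⟨g1, g2, g3⟩ := fac_erase hG y hyA v hv
      have hu' : u = y - v := by rw [← hyu, h4]
      have h5 : y - u = v := by omega
      have h6 : u + v = y := by omega
      have hext : v ∈ ext m c G u := by rw [hu']; exact mem_ext_sub hG hyA hv
      have h7 := len_ext hext
      rw [h6] at h7
      refine ⟨by omega, ?_, by omega⟩
      rw [h5, hR]
      simp only [Finset.mem_filter]
      rw [h6]
      exact ⟨hext, hyl, hyu⟩
    rw [Finset.sum_congr rfl (fun y hy => (h3 y hy).1), Finset.sum_const, smul_eq_mul, mul_comm]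
    apply Nat.mul_le_mul_left
    apply Finset.card_le_card_of_injOn (fun y => y - u)
    · intro y hy
      exact (h3 y hy).2.1
    · intro y hy y' hy' h
      have g1 := (h3 y hy).2.2
      have g2 := (h3 y' hy').2.2
      simp only at h
      omega
  have h3 : ∑ u ∈ (Ap m c G).filter (fun y => 2 ≤ len m G y),
          (G.card - (ext m c G u).card) * dep m c u
      < ∑ u ∈ (Ap m c G).filter (fun y => 2 ≤ len m G y), (len m G u - 1) * (R u).card := by
    omega
  obtain ⟨u, hu, hlt⟩ := Finset.exists_lt_of_sum_lt h3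
  rw [Finset.mem_filter, mem_Ap] at hu
  refine ⟨u, hu.1, hu.2, R u, Finset.filter_subset _ _, hlt, ?_⟩
  intro v hv w hw
  rw [hR] at hv
  simp only [Finset.mem_filter] at hv
  obtain ⟨hve, hvl, hvn⟩ := hv
  obtain ⟨v', hv', h4, h5⟩ := hnm (u + v) (mem_ext.1 hve).2.1 hvl
  rw [hvn] at h5
  exact h5 w hw

/-- Number of pairs in a finite set of naturals. -/
lemma card_pairs (R : Finset ℕ) :
    2 * ∑ v ∈ R, (R.filter (fun w => w < v)).card ≤ R.card * R.card - R.card := by
  classical
  have h1 : ∑ v ∈ R, (R.filter (fun w => w < v)).card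
      = ((R ×ˢ R).filter (fun p => p.2 < p.1)).card := by
    rw [Finset.card_filter, Finset.sum_product]
    apply Finset.sum_congr rfl
    intro v _
    rw [Finset.card_filter]
  have h2 : ((R ×ˢ R).filter (fun p => p.1 < p.2)).card
      = ((R ×ˢ R).filter (fun p => p.2 < p.1)).card := by
    apply Finset.card_bij (fun p _ => (p.2, p.1))
    · rintro ⟨a, b⟩ h
      simp only [Finset.mem_filter, Finset.mem_product] at h ⊢
      exact ⟨⟨h.1.2, h.1.1⟩, h.2⟩
    · rintro ⟨a, b⟩ _ ⟨a', b'⟩ _ h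
      simp only [Prod.mk.injEq] at h ⊢
      exact ⟨h.2, h.1⟩
    · rintro ⟨a, b⟩ h
      simp only [Finset.mem_filter, Finset.mem_product] at h
      refine ⟨(b, a), ?_, rfl⟩
      simp only [Finset.mem_filter, Finset.mem_product]
      exact ⟨⟨h.1.2, h.1.1⟩, h.2⟩
  have h3 : ((R ×ˢ R).filter (fun p => p.1 < p.2)).card
      + ((R ×ˢ R).filter (fun p => p.2 < p.1)).card ≤ R.offDiag.card := by
    rw [← Finset.card_union_of_disjoint]
    · apply Finset.card_le_card
      rintro ⟨a, b⟩ h
      rw [Finset.mem_union, Finset.mem_filter, Finset.mem_filter, Finset.mem_product] at h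
      rw [Finset.mem_offDiag]
      rcases h with ⟨⟨ha, hb⟩, h⟩ | ⟨⟨ha, hb⟩, h⟩
      · exact ⟨ha, hb, by simp only at h ⊢; omega⟩
      · exact ⟨ha, hb, by simp only at h ⊢; omega⟩
    · rw [Finset.disjoint_left]
      rintro ⟨a, b⟩ h h'
      rw [Finset.mem_filter] at h h'
      have g1 := h.2
      have g2 := h'.2
      simp only at g1 g2
      omega
  rw [Finset.offDiag_card] at h3
  rw [h1]
  omega

end Pool.Agent.Helper33.Eliahou
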