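import Mathlib
import Pool.Agent.Helper33.EliahouViol

namespace Pool.Agent.Helper33.Eliahou

lemma exists_sub (M : Multiset ℕ) :
    ∀ i ≤ Multiset.card M, ∃ K L : Multiset ℕ, M = K + L ∧ Multiset.card K = i := by
  induction M using Multiset.induction_on with
  | empty =>
    intro i hi
    simp only [Multiset.card_zero, Nat.le_zero] at hi
    exact ⟨0, 0, by simp, by simp [hi]⟩
  | cons v M ih =>
    intro i hi
    rw [Multiset.card_cons] at hi
    rcases Nat.lt_or_ge i (Multiset.card M + 1) with h | h
    · obtain ⟨K, L, h1, h2⟩ := ih i (by omega)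
      exact ⟨K, v ::ₘ L, by rw [Multiset.add_cons, ← h1], h2⟩
    · exact ⟨v ::ₘ M, 0, by simp, by rw [Multiset.card_cons]; omega⟩

lemma dep_lower {m c h y : ℕ} (hm : 0 < m) (L : Multiset ℕ) (hL : ∀ v ∈ L, h * m < 2 * v)
    (hy : y + L.sum < c + m) : Multiset.card L * h / 2 ≤ dep m c y := by
  rcases Nat.eq_zero_or_pos (Multiset.card L) with h0 | h0
  · rw [h0]; simp
  · have h1 : Multiset.card L * (h * m + 1) ≤ 2 * L.sum := by
      have h2 : 2 * L.sum = (L.map (fun v => 2 * v)).sum := by
        rw [Multiset.sum_map_mul_left, Multiset.map_id']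
      rw [h2]
      have := Multiset.card_nsmul_le_sum (s := L.map (fun v => 2 * v)) (a := h * m + 1)
      rw [Multiset.card_map, smul_eq_mul] at this
      apply this
      intro x hx
      obtain ⟨v, hv, rfl⟩ := Multiset.mem_map.1 hx
      exact hL v hv
    by_contra hlt
    push Not at hlt
    have h3 : 2 * (dep m c y + 1) ≤ Multiset.card L * h := by
      have := Nat.div_mul_le_self (Multiset.card L * h) 2
      omega
    have h4 := Nat.mul_le_mul_right m h3
    have h5 := le_add_dep (c := c) hm y
    nlinarith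

/-- If the violation property holds at `u`, then the total depth is large. -/
lemma total_lower {m c h : ℕ} {G : Finset ℕ} (hm : 0 < m) (hG : ∀ v ∈ G, 0 < v)
    (hh : ∀ v ∈ G, h * m < 2 * v) {u : ℕ} (hu : IsAp m c G u) (hlen : 2 ≤ len m G u)
    {R : Finset ℕ} (hRe : R ⊆ ext m c G u)
    (hR : ∀ v ∈ R, ∀ w ∈ fac m G (u + v),
      (ext m c G u).card ≤ (ext m c G (u + v - w)).card) :
    ∃ Q : ℕ, 2 * (R.card * (ext m c G u).card) ≤ 2 * Q + (R.card * R.card - R.card) ∧
      Q * ∑ i ∈ Finset.range (len m G u - 1), ((len m G u - 1 - i) * h / 2)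
        ≤ ∑ y ∈ (Ap m c G).filter (fun y => 2 ≤ len m G y), dep m c y := by
  classical
  obtain ⟨w0, hw0⟩ : ∃ w0, w0 ∈ fac m G u := by
    apply Multiset.exists_mem_of_ne_zero
    intro h0
    unfold len at hlen
    rw [h0] at hlen
    simp at hlen
  set N := (fac m G u).erase w0 with hN
  have hNcard : Multiset.card N = len m G u - 1 := by
    rw [hN, Multiset.card_erase_of_mem hw0, Nat.pred_eq_sub_one]; rfl
  -- factorisation of u + v - w0
  have key1 : ∀ v ∈ R, IsAp m c G (u + v - w0) ∧ fac m G (u + v - w0) = v ::ₘ N ∧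
      (ext m c G u).card ≤ (ext m c G (u + v - w0)).card := by
    intro v hv
    have hve := hRe hv
    obtain ⟨hvG, hA, hf⟩ := mem_ext.1 hve
    have hw : w0 ∈ fac m G (u + v) := by rw [hf]; exact Multiset.mem_cons_of_mem hw0
    obtain ⟨g1, g2, g3⟩ := fac_erase hG (u + v) hA w0 hw
    refine ⟨g2, ?_, hR v hv w0 hw⟩
    rw [g3, hf]
    by_cases hvw : v = w0
    · subst hvw
      rw [Multiset.erase_cons_head, hN, Multiset.cons_erase hw0]
    · rw [Multiset.erase_cons_tail _ hvw, hN]
  -- the set of pairs
  set Q : Finset (ℕ × ℕ) := (R ×ˢ G).filter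
    (fun p => p.2 ∈ ext m c G (u + p.1 - w0) ∧ ¬ (p.2 ∈ R ∧ p.2 < p.1)) with hQ
  refine ⟨Q.card, ?_, ?_⟩
  · have h1 : Q.card = ∑ v ∈ R, (G.filter
        (fun w => w ∈ ext m c G (u + v - w0) ∧ ¬ (w ∈ R ∧ w < v))).card := by
      rw [hQ, Finset.card_filter, Finset.sum_product]
      apply Finset.sum_congr rfl
      intro v _
      rw [Finset.card_filter]
    have h2 : ∀ v ∈ R, (ext m c G u).card ≤ (G.filter
        (fun w => w ∈ ext m c G (u + v - w0) ∧ ¬ (w ∈ R ∧ w < v))).card
        + (R.filter (fun w => w < v)).card := by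
      intro v hv
      refine le_trans (key1 v hv).2.2 ?_
      rw [← Finset.card_union_of_disjoint]
      · apply Finset.card_le_card
        intro w hw
        rw [Finset.mem_union, Finset.mem_filter, Finset.mem_filter]
        by_cases hwR : w ∈ R ∧ w < v
        · right; exact hwR
        · left; exact ⟨(mem_ext.1 hw).1, hw, hwR⟩
      · rw [Finset.disjoint_left]
        intro w hw hw'
        rw [Finset.mem_filter] at hw hw'
        exact hw.2.2 hw'
    have h3 := Finset.sum_le_sum h2
    rw [Finset.sum_const, smul_eq_mul, Finset.sum_add_distrib, ← h1] at h3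
    have h4 := card_pairs R
    omega
  · rw [Finset.mul_sum]
    -- for each i, the contribution of elements of length i + 2
    have h5 : ∀ i ∈ Finset.range (len m G u - 1),
        Q.card * ((len m G u - 1 - i) * h / 2)
          ≤ ∑ y ∈ (Ap m c G).filter (fun y => len m G y = i + 2), dep m c y := by
      intro i hi
      rw [Finset.mem_range] at hi
      obtain ⟨K, L, hKL, hK⟩ := exists_sub N i (by omega)
      have hLcard : Multiset.card L = len m G u - 1 - i := by
        have := congrArg Multiset.card hKL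
        rw [Multiset.card_add] at this
        omega
      -- the element attached to a pair
      have h6 : ∀ p ∈ Q, IsAp m c G (p.1 ::ₘ p.2 ::ₘ K).sum ∧
          fac m G (p.1 ::ₘ p.2 ::ₘ K).sum = p.1 ::ₘ p.2 ::ₘ K ∧
          (len m G u - 1 - i) * h / 2 ≤ dep m c (p.1 ::ₘ p.2 ::ₘ K).sum := by
        intro p hp
        rw [hQ, Finset.mem_filter, Finset.mem_product] at hp
        obtain ⟨⟨hp1, hp2⟩, hp3, -⟩ := hp
        obtain ⟨k1, k2, -⟩ := key1 p.1 hp1
        obtain ⟨-, k3, k4⟩ := mem_ext.1 hp3
        have k5 : fac m G (u + p.1 - w0 + p.2) = (p.1 ::ₘ p.2 ::ₘ K) + L := by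
          rw [k4, k2, hKL, Multiset.cons_add, Multiset.cons_add, Multiset.cons_swap]
        obtain ⟨k6, k7⟩ := fac_sub hG L _ _ k3 k5
        refine ⟨k6, k7, ?_⟩
        rw [← hLcard]
        apply dep_lower hm L
        · intro v hv
          apply hh
          apply (fac_spec hG _ k3).2 v
          rw [k5]
          exact Multiset.mem_add.2 (Or.inr hv)
        · have k8 := (fac_spec hG _ k3).1
          rw [k5, Multiset.sum_add] at k8
          rw [k8]
          exact k3.2.1
      rw [← smul_eq_mul, ← Finset.sum_const]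
      apply sum_le_sum_inj _ _ _ _ (fun p => (p.1 ::ₘ p.2 ::ₘ K).sum)
      · intro p hp
        rw [Finset.mem_filter, mem_Ap]
        obtain ⟨k6, k7, -⟩ := h6 p hp
        refine ⟨k6, ?_⟩
        unfold len
        rw [k7, Multiset.card_cons, Multiset.card_cons, hK]
      · rintro ⟨a, b⟩ hp ⟨a', b'⟩ hp' hab
        have k7 := (h6 _ hp).2.1
        have k7' := (h6 _ hp').2.1
        simp only at hab k7 k7'
        rw [hab, k7'] at k7
        have k9 : a' ::ₘ b' ::ₘ (0 : Multiset ℕ) = a ::ₘ b ::ₘ 0 := by
          have e1 : a' ::ₘ b' ::ₘ K = (a' ::ₘ b' ::ₘ (0 : Multiset ℕ)) + K := by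
            rw [Multiset.cons_add, Multiset.cons_add, zero_add]
          have e2 : a ::ₘ b ::ₘ K = (a ::ₘ b ::ₘ (0 : Multiset ℕ)) + K := by
            rw [Multiset.cons_add, Multiset.cons_add, zero_add]
          rw [e1, e2] at k7
          exact add_right_cancel k7
        rw [hQ, Finset.mem_filter, Finset.mem_product] at hp hp'
        obtain ⟨⟨hp1, -⟩, -, hp4⟩ := hp
        obtain ⟨⟨hp1', -⟩, -, hp4'⟩ := hp'
        simp only at hp1 hp4 hp1' hp4'
        by_cases haa : a = a'
        · subst haa
          rw [Multiset.cons_inj_right, Multiset.cons_inj_left] at k9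
          rw [k9]
        · exfalso
          have m1 : a ∈ a' ::ₘ b' ::ₘ (0 : Multiset ℕ) := by rw [k9]; simp
          have m2 : a' ∈ a ::ₘ b ::ₘ (0 : Multiset ℕ) := by rw [← k9]; simp
          simp only [Multiset.mem_cons, Multiset.notMem_zero, or_false] at m1 m2
          have n1 : a = b' := by
            rcases m1 with h | h
            · exact absurd h haa
            · exact h
          have n2 : a' = b := by
            rcases m2 with h | h
            · exact absurd h.symm haa
            · exact h
          subst n1; subst n2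
          have q1 : ¬ a' < a := fun h => hp4 ⟨hp1', h⟩
          have q2 : ¬ a < a' := fun h => hp4' ⟨hp1, h⟩
          omega
      · intro p hp
        exact (h6 p hp).2.2
    refine le_trans (Finset.sum_le_sum h5) ?_
    rw [← Finset.sum_biUnion]
    · apply Finset.sum_le_sum_of_subset
      intro y hy
      rw [Finset.mem_biUnion] at hy
      obtain ⟨i, -, hy⟩ := hy
      rw [Finset.mem_filter] at hy ⊢
      exact ⟨hy.1, by omega⟩
    · intro i _ i' _ hii
      simp only [Function.onFun]
      rw [Finset.disjoint_left]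
      intro y hy hy'
      rw [Finset.mem_filter] at hy hy'
      omega

end Pool.Agent.Helper33.Eliahou
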