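import Mathlib
import Pool.Agent.Helper33.EliahouLower
import Pool.Agent.Helper33.EliahouArith

namespace Pool.Agent.Helper33.Eliahou

open Classical in
/-- number of elements below `c` -/
noncomputable def kk (m c : ℕ) (G : Finset ℕ) : ℕ := ((Finset.range c).filter (InA m G)).card

open Classical in
/-- number of elements in the window `[c, c + m)` -/
noncomputable def dd (m c : ℕ) (G : Finset ℕ) : ℕ :=
  ((Finset.Ico c (c + m)).filter (InA m G)).card

/-- Eliahou number in terms of `kk` and `dd`. -/
noncomputable def eint (m c : ℕ) (G : Finset ℕ) : ℤ :=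
  (1 + G.card) * kk m c G - dep m c 0 * dd m c G + (dep m c 0 * m - c)

lemma kk_eq {m c : ℕ} {G : Finset ℕ} (hm : 0 < m) : kk m c G = ∑ y ∈ Ap m c G, dep m c y :=
  card_below hm

lemma dd_eq {m c : ℕ} {G : Finset ℕ} (hm : 0 < m) : dd m c G = (Ap m c G).card :=
  card_window hm

/-- Generators which are not sums of two nonzero elements are Apéry elements of length one. -/
lemma gen_ap {m c : ℕ} {G : Finset ℕ} (hm : 0 < m) (hG : ∀ v ∈ G, m < v ∧ v < c)
    (hprim : ∀ v ∈ G, ∀ y z, InA m G y → InA m G z → y ≠ 0 → z ≠ 0 → y + z ≠ v)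
    {v : ℕ} (hv : v ∈ G) : IsAp m c G v ∧ len m G v = 1 := by
  have hpos : ∀ w ∈ G, 0 < w := fun w hw => by have := (hG w hw).1; omega
  have hA : IsAp m c G v := by
    refine ⟨InA.gen hv, by have := (hG v hv).2; omega, ?_⟩
    intro z hz hzm
    have h1 := (hG v hv).1
    apply hprim v hv z m hz ?_ (by omega) (by omega) hzm
    have := InA.mul m G 1
    rwa [one_mul] at this
  refine ⟨hA, ?_⟩
  obtain ⟨h1, h2⟩ := fac_spec hpos v hA
  unfold len
  rcases Nat.lt_trichotomy (Multiset.card (fac m G v)) 1 with h | h | h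
  · have h0 : fac m G v = 0 := Multiset.card_eq_zero.1 (by omega)
    rw [h0] at h1
    simp only [Multiset.sum_zero] at h1
    have := hpos v hv
    omega
  · exact h
  · exfalso
    obtain ⟨w, hw⟩ := Multiset.card_pos_iff_exists_mem.1 (show 0 < Multiset.card (fac m G v) by omega)
    obtain ⟨N, hN⟩ := Multiset.exists_cons_of_mem hw
    have hNc : 0 < Multiset.card N := by
      have := congrArg Multiset.card hN
      rw [Multiset.card_cons] at this
      omega
    obtain ⟨w', hw'⟩ := Multiset.card_pos_iff_exists_mem.1 hNc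
    have h3 : w' ≤ N.sum := Multiset.le_sum_of_mem hw'
    have hmem : ∀ z ∈ N, z ∈ G := fun z hz => h2 z (by rw [hN]; exact Multiset.mem_cons_of_mem hz)
    have h4 : 0 < w' := hpos w' (hmem w' hw')
    have h5 : 0 < w := hpos w (h2 w hw)
    rw [hN, Multiset.sum_cons] at h1
    exact hprim v hv w N.sum (InA.gen (h2 w hw)) (InA.multiset_sum hmem) (by omega) (by omega) h1

/-- Lower bound for the number of elements below `c`. -/
lemma kk_lower {m c : ℕ} {G : Finset ℕ} (hm : 0 < m) (hG : ∀ v ∈ G, m < v ∧ v < c)
    (hprim : ∀ v ∈ G, ∀ y z, InA m G y → InA m G z → y ≠ 0 → z ≠ 0 → y + z ≠ v) :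
    dep m c 0 + ∑ v ∈ G, dep m c v
      + ∑ y ∈ (Ap m c G).filter (fun y => 2 ≤ len m G y), dep m c y ≤ kk m c G := by
  classical
  have hpos : ∀ w ∈ G, 0 < w := fun w hw => by have := (hG w hw).1; omega
  rw [kk_eq hm, sum_split m c G, filter_len_zero hm hpos, Finset.sum_singleton]
  have : ∑ v ∈ G, dep m c v ≤ ∑ y ∈ (Ap m c G).filter (fun y => len m G y = 1), dep m c y := by
    apply Finset.sum_le_sum_of_subset
    intro v hv
    rw [Finset.mem_filter, mem_Ap]
    exact gen_ap hm hG hprim hv
  omega

/-- Elements of the larger semigroup below `c + m`. -/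
lemma new_elem {m c g x : ℕ} {G : Finset ℕ} (hg : ∀ v ∈ G, g ≤ v) (hgx : g ≤ x)
    (hcond : c + m ≤ x + 2 * g) {z : ℕ} (hz : InA m (insert x G) z) (hlt : z < c + m) :
    InA m G z ∨ (∃ j, z = x + j * m) ∨ (∃ v ∈ G, ∃ j, z = x + v + j * m) ∨
      (∃ j, z = x + x + j * m) := by
  classical
  obtain ⟨j, M, hM, rfl⟩ := hz
  by_cases hx : x ∈ M
  · right
    obtain ⟨M1, rfl⟩ := Multiset.exists_cons_of_mem hx
    rcases Multiset.empty_or_exists_mem M1 with rfl | ⟨v, hv⟩
    · left; exact ⟨j, by simp⟩
    · right
      obtain ⟨M2, rfl⟩ := Multiset.exists_cons_of_mem hv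
      have hv' : v ∈ insert x G := hM v (by simp)
      have hgv : ∀ w ∈ insert x G, g ≤ w := by
        intro w hw
        rcases Finset.mem_insert.1 hw with rfl | h
        · exact hgx
        · exact hg w h
      rcases Multiset.empty_or_exists_mem M2 with rfl | ⟨w, hw⟩
      · rcases Finset.mem_insert.1 hv' with rfl | h
        · right; exact ⟨j, by simp⟩
        · left; exact ⟨v, h, j, by simp⟩
      · exfalso
        have h1 : w ≤ M2.sum := Multiset.le_sum_of_mem hw
        have h2 : g ≤ w := hgv w (hM w (by simp [hw]))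
        have h3 : g ≤ v := hgv v hv'
        rw [Multiset.sum_cons, Multiset.sum_cons] at hlt
        omega
  · left
    refine ⟨j, M, ?_, rfl⟩
    intro v hv
    rcases Finset.mem_insert.1 (hM v hv) with rfl | h
    · exact absurd hv hx
    · exact h

lemma window_eq {m c b j : ℕ} (hm : 0 < m) (h1 : c ≤ b + j * m) (h2 : b + j * m < c + m) :
    b + j * m = b + dep m c b * m := by
  rcases window_unique hm h1 h2 with h | h
  · exact h
  · omega

open Classical in
/-- Window count, when the class of `x` may be new. -/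
lemma dd_upper_A {m c g x : ℕ} {G : Finset ℕ} (hm : 0 < m) (hg : ∀ v ∈ G, g ≤ v) (hgx : g ≤ x)
    (hcond : c + m ≤ x + 2 * g) :
    dd m c (insert x G) ≤ dd m c G + (1 + (G.filter (fun v => x + v < c + m)).card
      + (if x + x < c + m then 1 else 0)) := by
  set B : Finset ℕ := ({x} ∪ (G.filter (fun v => x + v < c + m)).image (fun v => x + v))
    ∪ (if x + x < c + m then {x + x} else ∅) with hB
  have hsub : (Finset.Ico c (c + m)).filter (InA m (insert x G))
      ⊆ (Finset.Ico c (c + m)).filter (InA m G) ∪ B.image (fun b => b + dep m c b * m) := by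
    intro z hz
    rw [Finset.mem_filter, Finset.mem_Ico] at hz
    rw [Finset.mem_union, Finset.mem_filter, Finset.mem_Ico, Finset.mem_image]
    rcases new_elem hg hgx hcond hz.2 hz.1.2 with h | ⟨j, rfl⟩ | ⟨v, hv, j, rfl⟩ | ⟨j, rfl⟩
    · left; exact ⟨hz.1, h⟩
    · right
      refine ⟨x, ?_, (window_eq hm hz.1.1 hz.1.2).symm⟩
      rw [hB]; simp
    · right
      refine ⟨x + v, ?_, (window_eq hm hz.1.1 hz.1.2).symm⟩
      rw [hB, Finset.mem_union, Finset.mem_union]
      left; right
      rw [Finset.mem_image]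
      refine ⟨v, ?_, rfl⟩
      rw [Finset.mem_filter]
      exact ⟨hv, by have := hz.1.2; omega⟩
    · right
      refine ⟨x + x, ?_, (window_eq hm hz.1.1 hz.1.2).symm⟩
      rw [hB, Finset.mem_union]
      right
      rw [if_pos (by have := hz.1.2; omega)]
      simp
  unfold dd
  refine le_trans (Finset.card_le_card hsub) (le_trans (Finset.card_union_le _ _) ?_)
  apply Nat.add_le_add_left
  refine le_trans Finset.card_image_le ?_
  rw [hB]
  refine le_trans (Finset.card_union_le _ _) ?_
  apply Nat.add_le_add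
  · refine le_trans (Finset.card_union_le _ _) ?_
    rw [Finset.card_singleton]
    exact Nat.add_le_add_left Finset.card_image_le _
  · split_ifs <;> simp

open Classical in
/-- Window count, when the class of `x` is already present below `c`. -/
lemma dd_upper_B {m c g x j0 : ℕ} {G : Finset ℕ} (hm : 0 < m) (hg : ∀ v ∈ G, g ≤ v) (hgx : g ≤ x)
    (hcond : c + m ≤ x + 2 * g) (hj0 : InA m G (x + j0 * m)) (hj0c : x + j0 * m < c) :
    dd m c (insert x G) ≤ dd m c G
      + ((G.filter (fun v => x + v < c + m ∧ c + m ≤ x + j0 * m + v)).card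
      + (if x + x < c + m then 1 else 0)) := by
  set B : Finset ℕ := ((G.filter (fun v => x + v < c + m ∧ c + m ≤ x + j0 * m + v)).image
    (fun v => x + v)) ∪ (if x + x < c + m then {x + x} else ∅) with hB
  have hsub : (Finset.Ico c (c + m)).filter (InA m (insert x G))
      ⊆ (Finset.Ico c (c + m)).filter (InA m G) ∪ B.image (fun b => b + dep m c b * m) := by
    intro z hz
    rw [Finset.mem_filter, Finset.mem_Ico] at hz
    rw [Finset.mem_union, Finset.mem_filter, Finset.mem_Ico, Finset.mem_image]
    rcases new_elem hg hgx hcond hz.2 hz.1.2 with h | ⟨j, rfl⟩ | ⟨v, hv, j, rfl⟩ | ⟨j, rfl⟩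
    · left; exact ⟨hz.1, h⟩
    · left
      refine ⟨hz.1, ?_⟩
      have h1 : j0 ≤ j := by
        by_contra hlt
        push Not at hlt
        have : j * m ≤ j0 * m := Nat.mul_le_mul_right m hlt.le
        have := hz.1.1
        omega
      obtain ⟨i, rfl⟩ : ∃ i, j = j0 + i := ⟨j - j0, by omega⟩
      have := hj0.add_mul i
      rwa [show x + j0 * m + i * m = x + (j0 + i) * m by ring] at this
    · by_cases hv2 : c + m ≤ x + j0 * m + v
      · right
        refine ⟨x + v, ?_, (window_eq hm hz.1.1 hz.1.2).symm⟩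
        rw [hB, Finset.mem_union]
        left
        rw [Finset.mem_image]
        refine ⟨v, ?_, rfl⟩
        rw [Finset.mem_filter]
        exact ⟨hv, by have := hz.1.2; omega, hv2⟩
      · left
        refine ⟨hz.1, ?_⟩
        push Not at hv2
        have h1 : j0 ≤ j := by
          by_contra hlt
          push Not at hlt
          have h2 : (j + 1) * m ≤ j0 * m := Nat.mul_le_mul_right m hlt
          rw [Nat.succ_mul] at h2
          have := hz.1.1
          omega
        obtain ⟨i, rfl⟩ : ∃ i, j = j0 + i := ⟨j - j0, by omega⟩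
        have := (hj0.add (InA.gen hv)).add_mul i
        rwa [show x + j0 * m + v + i * m = x + v + (j0 + i) * m by ring] at this
    · right
      refine ⟨x + x, ?_, (window_eq hm hz.1.1 hz.1.2).symm⟩
      rw [hB, Finset.mem_union]
      right
      rw [if_pos (by have := hz.1.2; omega)]
      simp
  unfold dd
  refine le_trans (Finset.card_le_card hsub) (le_trans (Finset.card_union_le _ _) ?_)
  apply Nat.add_le_add_left
  refine le_trans Finset.card_image_le ?_
  rw [hB]
  refine le_trans (Finset.card_union_le _ _) ?_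
  apply Nat.add_le_add
  · exact Finset.card_image_le
  · split_ifs <;> simp

open Classical in
/-- If no `x + j m < c` lies in the smaller semigroup then at least `dep x` elements are new. -/
lemma kk_gain_A {m c x : ℕ} {G : Finset ℕ} (hm : 0 < m)
    (hA : ∀ j, x + j * m < c → ¬ InA m G (x + j * m)) :
    kk m c G + dep m c x ≤ kk m c (insert x G) := by
  unfold kk
  have h1 : ((Finset.range (dep m c x)).image (fun j => x + j * m)).card = dep m c x := by
    rw [Finset.card_image_of_injective, Finset.card_range]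
    intro a b hab
    simp only at hab
    have : a * m = b * m := by omega
    exact Nat.eq_of_mul_eq_mul_right hm this
  rw [← h1, ← Finset.card_union_of_disjoint]
  · apply Finset.card_le_card
    intro z hz
    rw [Finset.mem_union, Finset.mem_filter, Finset.mem_image, Finset.mem_range] at hz
    rw [Finset.mem_filter, Finset.mem_range]
    rcases hz with h | ⟨j, hj, rfl⟩
    · exact ⟨h.1, h.2.mono (Finset.subset_insert _ _)⟩
    · rw [Finset.mem_range, lt_dep_iff hm] at hj
      exact ⟨hj, (InA.gen (Finset.mem_insert_self x G)).add_mul j⟩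
  · rw [Finset.disjoint_left]
    intro z hz hz'
    rw [Finset.mem_filter] at hz
    rw [Finset.mem_image] at hz'
    obtain ⟨j, hj, rfl⟩ := hz'
    rw [Finset.mem_range, lt_dep_iff hm] at hj
    exact hA j hj hz.2

open Classical in
lemma kk_gain_B {m c x : ℕ} {G : Finset ℕ} (hxc : x < c) (hx : ¬ InA m G x) :
    kk m c G + 1 ≤ kk m c (insert x G) := by
  unfold kk
  apply Nat.succ_le_of_lt
  apply Finset.card_lt_card
  rw [Finset.ssubset_iff_of_subset]
  · refine ⟨x, ?_, ?_⟩
    · rw [Finset.mem_filter, Finset.mem_range]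
      exact ⟨hxc, InA.gen (Finset.mem_insert_self x G)⟩
    · rw [Finset.mem_filter]
      exact fun h => hx h.2
  · intro z hz
    rw [Finset.mem_filter] at hz ⊢
    exact ⟨hz.1, hz.2.mono (Finset.subset_insert _ _)⟩

end Pool.Agent.Helper33.Eliahou
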