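import Mathlib
import Pool.Agent.Helper33.EliahouStep

namespace Pool.Agent.Helper33.Eliahou

/-- The data extracted from a negative Eliahou number of the larger semigroup. -/
lemma negative_data {m c g x h : ℕ} {G : Finset ℕ} (hm : 0 < m)
    (hG : ∀ v ∈ G, g ≤ v) (hmg : m < g) (hgx : g ≤ x) (hxG : x ∉ G)
    (hcond : c + m ≤ x + 2 * g) (hh : h * m < 2 * g)
    (hneg : eint m c (insert x G) < 0) :
    ∃ (J r t s d Q S : ℕ) (T : Finset ℕ), T ⊆ G ∧ T.card = t ∧
      1 ≤ J ∧ 1 ≤ r ∧ r ≤ t ∧ 1 ≤ s ∧ t + s = G.card + 1 ∧ h / 2 ≤ d ∧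
      s * d + 1 ≤ J * r ∧ 2 * (r * t) ≤ 2 * Q + (r * r - r) ∧
      S = ∑ i ∈ Finset.range J, ((J - i) * h / 2) ∧
      Q * S ≤ ∑ y ∈ (Ap m c (insert x G)).filter (fun y => 2 ≤ len m (insert x G) y), dep m c y ∧
      (∀ v ∈ T, dep m c 0 ≤ d + dep m c v + 1) := by
  classical
  set G' := insert x G with hG'
  have hgv : ∀ w ∈ G', g ≤ w := by
    intro w hw
    rcases Finset.mem_insert.1 hw with rfl | h
    · exact hgx
    · exact hG w h
  have hpos : ∀ w ∈ G', 0 < w := fun w hw => by have := hgv w hw; omega
  have hcard : G'.card = G.card + 1 := by rw [hG', Finset.card_insert_of_notMem hxG]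
  have hq : c ≤ dep m c 0 * m := by
    have := le_add_dep (c := c) hm 0
    omega
  have hE : (1 + G'.card) * ∑ y ∈ Ap m c G', dep m c y + (dep m c 0 * m - c)
      < dep m c 0 * (Ap m c G').card := by
    rw [← kk_eq hm, ← dd_eq hm]
    unfold eint at hneg
    zify [hq]
    linarith
  obtain ⟨u, hu, hlen, R, hRe, hlt, hR⟩ := exists_violation hm hpos hE
  obtain ⟨Q, hQ1, hQ2⟩ := total_lower (h := h) hm hpos
    (fun v hv => by have := hgv v hv; omega) hu hlen hRe hR
  -- x is not an extension of u
  have hext : ext m c G' u ⊆ G := by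
    intro v hv
    obtain ⟨h1, h2, h3⟩ := mem_ext.1 hv
    rcases Finset.mem_insert.1 h1 with rfl | h4
    · exfalso
      obtain ⟨k1, k2⟩ := fac_spec hpos u hu
      obtain ⟨a, ha⟩ := Multiset.card_pos_iff_exists_mem.1
        (show 0 < Multiset.card (fac m G' u) by unfold len at hlen; omega)
      obtain ⟨N, hN⟩ := Multiset.exists_cons_of_mem ha
      have hNc : 0 < Multiset.card N := by
        have := congrArg Multiset.card hN
        rw [Multiset.card_cons] at this
        unfold len at hlen
        omega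
      obtain ⟨b, hb⟩ := Multiset.card_pos_iff_exists_mem.1 hNc
      have k3 : b ≤ N.sum := Multiset.le_sum_of_mem hb
      have k4 : g ≤ b := hgv b (k2 b (by rw [hN]; exact Multiset.mem_cons_of_mem hb))
      have k5 : g ≤ a := hgv a (k2 a ha)
      rw [hN, Multiset.sum_cons] at k1
      have := h2.2.1
      omega
    · exact h4
  have hRpos : 0 < R.card := by
    rcases Nat.eq_zero_or_pos R.card with h0 | h0
    · rw [h0] at hlt; simp at hlt
    · exact h0
  obtain ⟨v, hv⟩ := Finset.card_pos.1 hRpos
  have hdu : h / 2 ≤ dep m c u := by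
    have h1 := (mem_ext.1 (hRe hv)).2.1.2.1
    have := dep_lower (h := h) (c := c) (y := u) hm {v}
      (fun w hw => by
        rw [Multiset.mem_singleton] at hw
        subst hw
        have := hgv w (mem_ext.1 (hRe hv)).1
        omega) (by simpa using h1)
    simpa using this
  have htG : (ext m c G' u).card ≤ G.card := Finset.card_le_card hext
  refine ⟨len m G' u - 1, R.card, (ext m c G' u).card, G.card + 1 - (ext m c G' u).card,
    dep m c u, Q, _, ext m c G' u, hext, rfl, by omega, hRpos, Finset.card_le_card hRe,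
    by omega, by omega, hdu, ?_, hQ1, rfl, hQ2, ?_⟩
  · rw [hcard] at hlt
    omega
  · intro w hw
    have h1 := (mem_ext.1 hw).2.1.2.1
    exact dep_add_dep hm h1

lemma finB (a q D P k k' D0 D' a1 e sG t s X ρ : ℤ) (hk : q + (D + sG) + P ≤ k')
    (hqD : q * D' ≤ q * (D0 + (a1 + e))) (hak : (a + 1) * (k + 1) ≤ (a + 1) * k')
    (he : e * q ≤ q) (hsum : a1 * q + t * X ≤ sG + a * (D + 1))
    (hfin : (t + s - 2) * D ≤ P + t * X + 1) (ha : t + s = a + 1)
    (hE : 0 ≤ (1 + a) * k - q * D0 + ρ) : 0 ≤ (1 + (a + 1)) * k' - q * D' + ρ := by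
  have h1 : t + s - 2 = a - 1 := by linarith
  rw [h1] at hfin
  linarith

lemma finA (a q D P k k' D0 D' a1 e sG sA ρ : ℤ) (hk : q + (D + sG) + P ≤ k')
    (hqD : q * D' ≤ q * (D0 + (1 + a1 + e))) (hak : (a + 1) * (k + D) ≤ (a + 1) * k')
    (he : e * q ≤ 2 * D + 1) (hsum : a1 * q ≤ sA + a1 * (D + 1))
    (hsub : sA ≤ sG) (haD : a1 * (D + 1) ≤ a * (D + 1))
    (hfin : a + 1 ≤ P)
    (hE : 0 ≤ (1 + a) * k - q * D0 + ρ) : 0 ≤ (1 + (a + 1)) * k' - q * D' + ρ := by
  linarith

/-- Adjoining one generator. -/
theorem step {m c g x : ℕ} {G : Finset ℕ} (hm : 0 < m) (hmg : m < g)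
    (hG : ∀ v ∈ G, g ≤ v ∧ v < c) (hgx : g ≤ x) (hxc : x < c) (hxG : x ∉ G)
    (hxA : ¬ InA m G x)
    (hcond : c + m ≤ x + 2 * g)
    (hprim : ∀ v ∈ insert x G, ∀ y z, InA m (insert x G) y → InA m (insert x G) z →
      y ≠ 0 → z ≠ 0 → y + z ≠ v)
    (hE : 0 ≤ eint m c G) : 0 ≤ eint m c (insert x G) := by
  classical
  by_contra hneg
  push Not at hneg
  have hGg : ∀ v ∈ G, g ≤ v := fun v hv => (hG v hv).1
  have hG' : ∀ v ∈ insert x G, m < v ∧ v < c := by
    intro v hv
    rcases Finset.mem_insert.1 hv with rfl | h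
    · exact ⟨by omega, hxc⟩
    · exact ⟨by have := (hG v h).1; omega, (hG v h).2⟩
  have hk := kk_lower hm hG' hprim
  rw [Finset.sum_insert hxG] at hk
  have hcard : (insert x G).card = G.card + 1 := Finset.card_insert_of_notMem hxG
  have hq : c ≤ dep m c 0 * m := by
    have := le_add_dep (c := c) hm 0
    omega
  set P := ∑ y ∈ (Ap m c (insert x G)).filter (fun y => 2 ≤ len m (insert x G) y), dep m c y
    with hP
  have hx2 : (if x + x < c + m then 1 else 0) * dep m c 0 ≤ 2 * dep m c x + 1 := by
    split_ifs with h2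
    · have := dep_add_dep hm h2; omega
    · omega
  by_cases hcase : ∃ j0, x + j0 * m < c ∧ InA m G (x + j0 * m)
  · -- the class of x is already present
    obtain ⟨j0, hj0c, hj0⟩ := hcase
    have hj0pos : 0 < j0 := by
      rcases Nat.eq_zero_or_pos j0 with rfl | h
      · simp at hj0; exact absurd hj0 hxA
      · exact h
    have hmj : 1 * m ≤ j0 * m := Nat.mul_le_mul_right m hj0pos
    have hD2 : 2 ≤ dep m c x := by
      have : 1 < dep m c x := by
        rw [lt_dep_iff hm]; omega
      omega
    have hDg : dep m c x * m < 2 * g := by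
      have h1 : dep m c x - 1 < dep m c x := by omega
      rw [lt_dep_iff hm] at h1
      have h2 : dep m c x * m = (dep m c x - 1) * m + m := by
        obtain ⟨i, hi⟩ : ∃ i, dep m c x = i + 1 := ⟨dep m c x - 1, by omega⟩
        rw [hi, Nat.succ_mul]; simp
      omega
    obtain ⟨J, r, t, s, d, Q, S, T, hTG, hTc, hJ, hr, hrt, hs, hts, hd, hv, hQ1, hS, hQ2, hT⟩ :=
      negative_data hm hGg hmg hgx hxG hcond hDg hneg
    rw [← hP] at hQ2
    have hw := dd_upper_B hm hGg hgx hcond hj0 hj0c
    have hk2 := kk_gain_B hxc hxA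
    set A1 := G.filter (fun v => x + v < c + m ∧ c + m ≤ x + j0 * m + v) with hA1
    set D := dep m c x with hD
    set q := dep m c 0 with hqdef
    obtain ⟨X, hX⟩ : ∃ X, X = D - d := ⟨_, rfl⟩
    -- pointwise inequality
    have hpt : ∀ v ∈ G, (if v ∈ A1 then q else 0) + (if v ∈ T then X else 0)
        ≤ dep m c v + (D + 1) := by
      intro v hv'
      have h1 : v ∈ A1 → q ≤ D + dep m c v + 1 := by
        intro h
        rw [hA1, Finset.mem_filter] at h
        exact dep_add_dep hm h.2.1
      have h2 : v ∈ T → q ≤ d + dep m c v + 1 := fun h => hT v h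
      split_ifs with h3 h4 h4
      · have := h1 h3; have := h2 h4; omega
      · have := h1 h3; omega
      · omega
      · omega
    have hsum := Finset.sum_le_sum hpt
    rw [Finset.sum_add_distrib, Finset.sum_add_distrib, Finset.sum_const, smul_eq_mul,
      ← Finset.sum_filter, ← Finset.sum_filter, Finset.sum_const, Finset.sum_const,
      smul_eq_mul, smul_eq_mul] at hsum
    have hf1 : G.filter (fun v => v ∈ A1) = A1 := by
      ext v
      rw [Finset.mem_filter]
      refine ⟨fun h => h.2, fun h => ⟨?_, h⟩⟩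
      rw [hA1] at h
      exact (Finset.mem_filter.1 h).1
    have hf2 : G.filter (fun v => v ∈ T) = T := by
      ext v
      rw [Finset.mem_filter]
      exact ⟨fun h => h.2, fun h => ⟨hTG h, h⟩⟩
    rw [hf1, hf2, hTc] at hsum
    -- arithmetic
    have hfin : ((t : ℤ) + s - 2) * D ≤ P + t * X + 1 := by
      have hQ1' : 2 * ((r : ℤ) * t) ≤ 2 * Q + (r * r - r) := by
        have h1 : r ≤ r * r := Nat.le_mul_self r
        zify [h1] at hQ1
        linarith
      rcases Nat.lt_or_ge J 2 with hJ2 | hJ2
      · have hJ1 : J = 1 := by omega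
        subst hJ1
        have hS' : S = D / 2 := by rw [hS]; simp
        apply arithB_two (k := ((D / 2 : ℕ) : ℤ)) (r := r) (d := d) (Q := Q)
        · have : 1 ≤ D / 2 := by omega
          exact_mod_cast this
        · have : 2 * (D / 2) ≤ D := by omega
          exact_mod_cast this
        · have : D ≤ 2 * (D / 2) + 1 := by omega
          exact_mod_cast this
        · exact_mod_cast hrt
        · exact_mod_cast hs
        · exact_mod_cast hd
        · have : s * d + 1 ≤ r := by omega
          exact_mod_cast this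
        · exact hQ1'
        · rw [hS'] at hQ2
          exact_mod_cast hQ2
        · positivity
        · have : D ≤ X + d := by omega
          zify at this
          linarith
      · have h6 := S_lower (J + 1) D hD2
        rw [Nat.add_sub_cancel, ← hS] at h6
        have hd1 : 1 ≤ d := by omega
        have := arithB_big (J := J) (D := D) (r := r) (t := t) (s := s) (d := d) (P := P)
          (Q := Q) (S := S) (by exact_mod_cast hJ2) (by exact_mod_cast hD2)
          (by exact_mod_cast hr) (by exact_mod_cast hrt) (by exact_mod_cast hs)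
          (by exact_mod_cast hd1) (by exact_mod_cast hv) hQ1' (by positivity)
          (by exact_mod_cast h6) (by exact_mod_cast hQ2)
        have h7 : (0 : ℤ) ≤ t * X := by positivity
        linarith
    -- conclusion
    unfold eint at hneg hE
    rw [hcard] at hneg
    have hE2 : (if x + x < c + m then 1 else 0) * q ≤ q := by
      split_ifs <;> simp
    have hqD := Nat.mul_le_mul_left q hw
    have hak := Nat.mul_le_mul_left (G.card + 1) hk2
    have := finB (G.card : ℤ) q D P (kk m c G) (kk m c (insert x G)) (dd m c G)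
      (dd m c (insert x G)) A1.card ((if x + x < c + m then 1 else 0 : ℕ) : ℤ)
      ((∑ v ∈ G, dep m c v : ℕ) : ℤ) t s X ((q : ℤ) * m - c)
      (by exact_mod_cast hk) (by exact_mod_cast hqD) (by exact_mod_cast hak)
      (by exact_mod_cast hE2) (by exact_mod_cast hsum) hfin (by exact_mod_cast hts) hE
    push_cast at hneg this
    linarith
  · -- the class of x is new below c
    push Not at hcase
    obtain ⟨J, r, t, s, d, Q, S, T, hTG, hTc, hJ, hr, hrt, hs, hts, hd, hv, hQ1, hS, hQ2, hT⟩ :=
      negative_data (h := 2) hm hGg hmg hgx hxG hcond (by omega) hneg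
    rw [← hP] at hQ2
    have hw := dd_upper_A hm hGg hgx hcond
    have hk2 := kk_gain_A hm hcase
    set A1 := G.filter (fun v => x + v < c + m) with hA1
    set D := dep m c x with hD
    set q := dep m c 0 with hqdef
    have hfin : t + s ≤ P := by
      have hQ1' : 2 * ((r : ℤ) * t) ≤ 2 * Q + (r * r - r) := by
        have h1 : r ≤ r * r := Nat.le_mul_self r
        zify [h1] at hQ1
        linarith
      have h6 := S_two (J + 1)
      rw [Nat.add_sub_cancel, ← hS] at h6
      have h7 : Q * ((J + 1) * J) ≤ 2 * P := by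
        rw [← h6]
        calc Q * (2 * S) = 2 * (Q * S) := by ring
          _ ≤ 2 * P := Nat.mul_le_mul_left 2 hQ2
      have hd1 : 1 ≤ d := by omega
      have := arithA (J := J) (r := r) (t := t) (s := s) (d := d) (P := P) (Q := Q)
        (by exact_mod_cast hJ) (by exact_mod_cast hr) (by exact_mod_cast hrt)
        (by exact_mod_cast hs) (by exact_mod_cast hd1) (by exact_mod_cast hv) hQ1'
        (by exact_mod_cast h7)
      exact_mod_cast this
    have hpt : ∀ v ∈ A1, q ≤ dep m c v + (D + 1) := by
      intro v hv'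
      rw [hA1, Finset.mem_filter] at hv'
      have := dep_add_dep hm hv'.2
      omega
    have hsum := Finset.sum_le_sum hpt
    rw [Finset.sum_add_distrib, Finset.sum_const, Finset.sum_const, smul_eq_mul, smul_eq_mul]
      at hsum
    have hA1G : A1.card ≤ G.card := Finset.card_filter_le _ _
    have hsub : ∑ v ∈ A1, dep m c v ≤ ∑ v ∈ G, dep m c v :=
      Finset.sum_le_sum_of_subset (Finset.filter_subset _ _)
    unfold eint at hneg hE
    rw [hcard] at hneg
    have hqD := Nat.mul_le_mul_left q hw
    have hak := Nat.mul_le_mul_left (G.card + 1) hk2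
    have haD := Nat.mul_le_mul_right (D + 1) hA1G
    have hfin' : G.card + 1 ≤ P := by omega
    have := finA (G.card : ℤ) q D P (kk m c G) (kk m c (insert x G)) (dd m c G)
      (dd m c (insert x G)) A1.card ((if x + x < c + m then 1 else 0 : ℕ) : ℤ)
      ((∑ v ∈ G, dep m c v : ℕ) : ℤ) ((∑ v ∈ A1, dep m c v : ℕ) : ℤ) ((q : ℤ) * m - c)
      (by exact_mod_cast hk) (by exact_mod_cast hqD) (by exact_mod_cast hak)
      (by exact_mod_cast hx2) (by exact_mod_cast hsum) (by exact_mod_cast hsub)
      (by exact_mod_cast haD) (by exact_mod_cast hfin') hE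
    push_cast at hneg this
    linarith

end Pool.Agent.Helper33.Eliahou
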