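import Mathlib
import Pool.Agent.Helper33.EliahouDefs
import Pool.Agent.Helper33.EliahouMain

namespace Pool.Agent.Helper33.Eliahou

/-- the generators other than the multiplicity -/
def gset (γ : ℕ → ℕ) (i : ℕ) : Finset ℕ := (Finset.Ico 1 i).image γ

lemma mem_gset {γ : ℕ → ℕ} {i v : ℕ} : v ∈ gset γ i ↔ ∃ a, 1 ≤ a ∧ a < i ∧ γ a = v := by
  unfold gset
  rw [Finset.mem_image]
  constructor
  · rintro ⟨a, ha, h⟩
    rw [Finset.mem_Ico] at ha
    exact ⟨a, ha.1, ha.2, h⟩
  · rintro ⟨a, h1, h2, h⟩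
    exact ⟨a, Finset.mem_Ico.2 ⟨h1, h2⟩, h⟩

lemma gset_succ {γ : ℕ → ℕ} {i : ℕ} (hi : 1 ≤ i) : gset γ (i + 1) = insert (γ i) (gset γ i) := by
  ext v
  rw [Finset.mem_insert, mem_gset, mem_gset]
  constructor
  · rintro ⟨a, h1, h2, h⟩
    rcases Nat.lt_or_ge a i with h3 | h3
    · exact Or.inr ⟨a, h1, h3, h⟩
    · have : a = i := by omega
      subst this
      exact Or.inl h.symm
  · rintro (h | ⟨a, h1, h2, h⟩)
    · exact ⟨i, hi, by omega, h.symm⟩
    · exact ⟨a, h1, by omega, h⟩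

lemma inA_sg {γ : ℕ → ℕ} {i c x : ℕ} (hi : 1 ≤ i) (h : InA (γ 0) (gset γ i) x) :
    x ∈ sg γ i c := by
  obtain ⟨j, M, hM, rfl⟩ := h
  apply AddSubmonoid.add_mem
  · apply AddSubmonoid.multiset_sum_mem
    intro v hv
    obtain ⟨a, h1, h2, h3⟩ := mem_gset.1 (hM v hv)
    exact AddSubmonoid.subset_closure (Or.inl ⟨a, h2, h3.symm⟩)
  · rw [← smul_eq_mul]
    apply AddSubmonoid.nsmul_mem
    exact AddSubmonoid.subset_closure (Or.inl ⟨0, by omega, rfl⟩)

lemma sg_inA {γ : ℕ → ℕ} {i c x : ℕ} (h : x ∈ sg γ i c) : InA (γ 0) (gset γ i) x ∨ c ≤ x := by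
  unfold sg at h
  induction h using AddSubmonoid.closure_induction with
  | mem x hx =>
    rcases hx with ⟨a, ha, rfl⟩ | hx
    · rcases Nat.eq_zero_or_pos a with rfl | h0
      · left
        have := InA.mul (γ 0) (gset γ i) 1
        rwa [one_mul] at this
      · left
        exact InA.gen (mem_gset.2 ⟨a, h0, ha, rfl⟩)
    · exact Or.inr hx
  | zero => exact Or.inl (InA.zero _ _)
  | add x y _ _ hx hy =>
    rcases hx with hx | hx
    · rcases hy with hy | hy
      · exact Or.inl (hx.add hy)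
      · right; omega
    · right; omega

lemma sg_mono {γ : ℕ → ℕ} {i i' c x : ℕ} (h : i ≤ i') (hx : x ∈ sg γ i c) : x ∈ sg γ i' c := by
  refine AddSubmonoid.closure_mono ?_ hx
  rintro y (⟨a, ha, rfl⟩ | hy)
  · exact Or.inl ⟨a, by omega, rfl⟩
  · exact Or.inr hy

/-- An element larger than all generators splits as a sum of two nonzero elements. -/
lemma inA_split {m : ℕ} {G : Finset ℕ} {x : ℕ} (hG : ∀ v ∈ G, 0 < v ∧ v < x) (hm : 0 < m)
    (hmx : m < x) (h : InA m G x) :
    ∃ y z, InA m G y ∧ InA m G z ∧ y ≠ 0 ∧ z ≠ 0 ∧ y + z = x := by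
  obtain ⟨j, M, hM, hx⟩ := h
  rcases Multiset.empty_or_exists_mem M with rfl | ⟨v, hv⟩
  · simp only [Multiset.sum_zero, zero_add] at hx
    obtain ⟨i, rfl⟩ : ∃ i, j = i + 1 := by
      rcases j with _ | i
      · exfalso; simp at hx; omega
      · exact ⟨i, rfl⟩
    refine ⟨m, i * m, ?_, InA.mul m G i, by omega, ?_, by rw [hx]; ring⟩
    · have := InA.mul m G 1
      rwa [one_mul] at this
    · intro h0
      rw [Nat.succ_mul, h0] at hx
      omega
  · obtain ⟨N, rfl⟩ := Multiset.exists_cons_of_mem hv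
    rw [Multiset.sum_cons] at hx
    have h1 := hG v (hM v hv)
    refine ⟨v, N.sum + j * m, InA.gen (hM v hv), ⟨j, N, fun w hw => hM w
      (Multiset.mem_cons_of_mem hw), rfl⟩, by omega, by omega, by omega⟩

lemma inA_ge {m : ℕ} {G : Finset ℕ} {x : ℕ} (hG : ∀ v ∈ G, m ≤ v) (h : InA m G x)
    (hx : x ≠ 0) : m ≤ x := by
  obtain ⟨j, M, hM, rfl⟩ := h
  rcases Multiset.empty_or_exists_mem M with rfl | ⟨v, hv⟩
  · rcases j with _ | i
    · simp at hx
    · simp only [Multiset.sum_zero, zero_add]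
      rw [Nat.succ_mul]; omega
  · have h1 : v ≤ M.sum := Multiset.le_sum_of_mem hv
    have h2 := hG v (hM v hv)
    omega

lemma isSum_iff {γ : ℕ → ℕ} {i c x : ℕ} (hi : 1 ≤ i) (hpos : 0 < γ 0) (h0c : γ 0 < c)
    (hG : ∀ v ∈ gset γ i, γ 0 ≤ v ∧ v < c) (hx : c ≤ x) (hxc : x < c + γ 0) :
    IsSum (sg γ i c) x ↔ InA (γ 0) (gset γ i) x := by
  constructor
  · rintro ⟨y, hy, z, hz, hy0, hz0, rfl⟩
    have key : ∀ w, w ∈ sg γ i c → w ≠ 0 → γ 0 ≤ w := by
      intro w hw hw0
      rcases sg_inA hw with h | h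
      · exact inA_ge (fun v hv => (hG v hv).1) h hw0
      · omega
    have h1 := key y hy hy0
    have h2 := key z hz hz0
    rcases sg_inA hy with h | h
    · rcases sg_inA hz with h' | h'
      · exact h.add h'
      · omega
    · omega
  · intro h
    obtain ⟨y, z, h1, h2, h3, h4, h5⟩ := inA_split (m := γ 0) (x := x)
      (fun v hv => ⟨by have := (hG v hv).1; omega, by have := (hG v hv).2; omega⟩) hpos
      (by omega) h
    exact ⟨y, inA_sg hi h1, z, inA_sg hi h2, h3, h4, h5⟩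

lemma ceil_eq {m c : ℕ} (hm : 0 < m) : ⌈(c : ℚ) / (m : ℚ)⌉ = (dep m c 0 : ℤ) := by
  rw [Int.ceil_eq_iff]
  have hm' : (0 : ℚ) < m := by exact_mod_cast hm
  have h1 := le_add_dep (c := c) hm 0
  have h2 := add_dep_lt (c := c) (y := 0) hm (by omega)
  rw [Nat.zero_add] at h1 h2
  constructor
  · rw [lt_div_iff₀ hm']
    have : (dep m c 0 : ℚ) * m < c + m := by exact_mod_cast h2
    push_cast
    linarith
  · rw [div_le_iff₀ hm']
    exact_mod_cast h1

lemma eliahou_eq {γ : ℕ → ℕ} {i c : ℕ} (hi : 1 ≤ i) (hpos : 0 < γ 0) (h0c : γ 0 < c)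
    (hG : ∀ v ∈ gset γ i, γ 0 ≤ v ∧ v < c) (hinj : (gset γ i).card + 1 = i) :
    eliahou γ i c = eint (γ 0) c (gset γ i) := by
  classical
  set m := γ 0
  set G := gset γ i
  have hk : {x | x ∈ sg γ i c ∧ x < c}.ncard = kk m c G := by
    unfold kk
    rw [← Set.ncard_coe_finset]
    congr 1
    ext x
    simp only [Set.mem_ofPred_eq, Finset.coe_filter, Finset.mem_range]
    constructor
    · rintro ⟨h1, h2⟩
      refine ⟨h2, ?_⟩
      rcases sg_inA h1 with h | h
      · exact h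
      · omega
    · rintro ⟨h1, h2⟩
      exact ⟨inA_sg hi h2, h1⟩
  have hr : {x | c ≤ x ∧ x < c + m ∧ ¬ IsSum (sg γ i c) x}.ncard + dd m c G = m := by
    unfold dd
    have h1 : {x | c ≤ x ∧ x < c + m ∧ ¬ IsSum (sg γ i c) x}
        = ((Finset.Ico c (c + m)).filter (fun x => ¬ InA m G x) : Set ℕ) := by
      ext x
      simp only [Set.mem_ofPred_eq, Finset.coe_filter, Finset.mem_Ico]
      constructor
      · rintro ⟨h1, h2, h3⟩
        exact ⟨⟨h1, h2⟩, fun h => h3 ((isSum_iff hi hpos h0c hG h1 h2).2 h)⟩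
      · rintro ⟨⟨h1, h2⟩, h3⟩
        exact ⟨h1, h2, fun h => h3 ((isSum_iff hi hpos h0c hG h1 h2).1 h)⟩
    rw [h1, Set.ncard_coe_finset, add_comm, Finset.card_filter_add_card_filter_not, Nat.card_Ico]
    omega
  unfold eliahou eint
  rw [hk, ceil_eq hpos]
  have hr' : ({x | c ≤ x ∧ x < c + γ 0 ∧ ¬ IsSum (sg γ i c) x}.ncard : ℤ) = m - dd m c G := by
    have : (({x | c ≤ x ∧ x < c + m ∧ ¬ IsSum (sg γ i c) x}.ncard + dd m c G : ℕ) : ℤ) = m := by
      exact_mod_cast hr
    push_cast at this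
    linarith
  rw [hr']
  have hi' : (i : ℤ) = G.card + 1 := by exact_mod_cast hinj.symm
  rw [hi']
  ring

/-- The main theorem. -/
theorem main (γ : ℕ → ℕ) (c l l' : ℕ) (hl : 2 ≤ l) (hll : l < l')
    (hpos : 0 < γ 0) (hmono : ∀ i j, i < j → j < l' → γ i < γ j) (hc : ∀ i < l', γ i < c)
    (hprim : ∀ i < l', ¬ IsSum (sg γ l' c) (γ i))
    (hcond : c + γ 0 ≤ γ l + 2 * γ 1)
    (hE : 0 ≤ eliahou γ l c) : 0 ≤ eliahou γ l' c := by
  classical
  have hG : ∀ i ≤ l', ∀ v ∈ gset γ i, γ 0 ≤ v ∧ v < c := by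
    intro i hi v hv
    obtain ⟨a, h1, h2, rfl⟩ := mem_gset.1 hv
    exact ⟨(hmono 0 a (by omega) (by omega)).le, hc a (by omega)⟩
  have hcardG : ∀ i, 1 ≤ i → i ≤ l' → (gset γ i).card + 1 = i := by
    intro i hi hil
    unfold gset
    rw [Finset.card_image_of_injOn, Nat.card_Ico]
    · omega
    · intro a ha b hb hab
      simp only [Finset.coe_Ico, Set.mem_Ico] at ha hb
      by_contra hne
      rcases Nat.lt_or_gt_of_ne hne with h | h
      · have := hmono a b h (by omega); omega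
      · have := hmono b a h (by omega); omega
  have h0c : γ 0 < c := hc 0 (by omega)
  have key : ∀ i, l ≤ i → i ≤ l' → 0 ≤ eint (γ 0) c (gset γ i) := by
    intro i hli
    induction i, hli using Nat.le_induction with
    | base =>
      intro _
      rw [← eliahou_eq (by omega) hpos h0c (hG l (by omega)) (hcardG l (by omega) (by omega))]
      exact hE
    | succ i hli ih =>
      intro hil
      have ih' := ih (by omega)
      rw [gset_succ (by omega)]
      have hlt : ∀ v ∈ gset γ i, γ 1 ≤ v ∧ v < γ i ∧ v < c := by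
        intro v hv
        obtain ⟨a, h1, h2, rfl⟩ := mem_gset.1 hv
        refine ⟨?_, hmono a i h2 (by omega), hc a (by omega)⟩
        rcases Nat.eq_or_lt_of_le h1 with h | h
        · rw [← h]
        · exact (hmono 1 a h (by omega)).le
      have h01 : γ 0 < γ 1 := hmono 0 1 (by omega) (by omega)
      have h1i : γ 1 ≤ γ i := (hmono 1 i (by omega) (by omega)).le
      have hsg : ∀ y, InA (γ 0) (gset γ (i + 1)) y → y ∈ sg γ l' c :=
        fun y hy => sg_mono (by omega) (inA_sg (by omega) hy)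
      apply step (g := γ 1) hpos h01
      · intro v hv
        exact ⟨(hlt v hv).1, (hlt v hv).2.2⟩
      · exact h1i
      · exact hc i (by omega)
      · intro h
        have := (hlt _ h).2.1
        omega
      · intro h
        obtain ⟨y, z, k1, k2, k3, k4, k5⟩ := inA_split (x := γ i)
          (fun v hv => ⟨by have := (hlt v hv).1; omega, (hlt v hv).2.1⟩) hpos (by omega) h
        apply hprim i (by omega)
        have hsub : gset γ i ⊆ gset γ (i + 1) := by
          rw [gset_succ (by omega)]; exact Finset.subset_insert _ _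
        exact ⟨y, hsg y (k1.mono hsub), z, hsg z (k2.mono hsub), k3, k4, k5⟩
      · have : γ l ≤ γ i := by
          rcases Nat.eq_or_lt_of_le hli with h | h
          · rw [h]
          · exact (hmono l i h (by omega)).le
        omega
      · rw [← gset_succ (by omega)]
        intro v hv y z hy hz hy0 hz0 hyz
        obtain ⟨a, h1, h2, rfl⟩ := mem_gset.1 hv
        exact hprim a (by omega) ⟨y, hsg y hy, z, hsg z hz, hy0, hz0, hyz⟩
      · exact ih'
  rw [eliahou_eq (by omega) hpos h0c (hG l' le_rfl) (hcardG l' (by omega) le_rfl)]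
  exact key l' hll.le le_rfl

end Pool.Agent.Helper33.Eliahou
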