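import Pool.Agent.Helper5.N2.Stmts2

/-!
# Row A2 of the N2 project: Bochner formula for `e`
-/

set_option autoImplicit false

namespace N233

open N2

section
variable {R : Type} [CommRing R] [DR R] {m : ℕ} (N : Nt R m)

lemma DvD'ps (h1 : ST_G1) : Dv (Dv' N.ps) = (-(N.K * N.F)) • N.ps := by
  have hB : Dv' N.A = (-(N.K * N.F)) • N.ps := (h1 R m N).2.2.2.2.2.2.2.2.1
  have hP := N.hPhi
  rw [Dv'_sub, hB, sub_eq_zero] at hP
  rw [Dv_comm, ← hP]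

lemma cjv_Dps : cjv (Dv N.ps) = Dv' N.ps := by
  rw [← Dv'_cjv, N.hpr]

lemma cjv_D'ps : cjv (Dv' N.ps) = Dv N.ps := by
  rw [← Dv_cjv, N.hpr]

lemma cjv_X : cjv N.X = Dv' (Dv' N.ps) - N.ph' • Dv' N.ps := by
  have h : N.X = Dv (Dv N.ps) - N.ph • Dv N.ps := rfl
  rw [h, cjv_sub, cjv_smul, ← Dv'_cjv, cjv_Dps]
  rfl

end

theorem st_A2 (h1 : ST_G1) : ST_A2 := by
  intro R _ _ m N
  obtain ⟨hK, hG, hg, hy, hGF, hDK, hD'K, hDB, hD'A, hBB, hAB, hAA, hpA, hpB, hDF, hD'F, hDG, hD'G⟩ :=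
    h1 R m N
  have hFG : N.F * N.G = 1 := N.hFG
  have hDD' := DvD'ps N h1
  have hD'D : Dv' (Dv N.ps) = (-(N.K * N.F)) • N.ps := by rw [← Dv_comm]; exact hDD'
  have hX : N.X = Dv (Dv N.ps) - N.ph • Dv N.ps := rfl
  have he : N.e = dot (Dv N.ps) (Dv' N.ps) * N.G := rfl
  have hDe : D N.e = dot N.X (Dv' N.ps) * N.G - N.K * dot (Dv N.ps) N.ps := by
    rw [he, D_mul, D_dot, hDD', hDG, hX, sub_dot, smul_dot, dot_smul]
    linear_combination (-(N.K * dot (Dv N.ps) N.ps)) * hFG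
  refine ⟨hDe, ?_⟩
  have hD'X : Dv' N.X = (-(N.K * N.F)) • Dv N.ps - (D' N.ph) • Dv N.ps := by
    rw [hX, Dv'_sub, Dv'_smul, ← Dv_comm, hD'D, Dv_smul, D_neg, D_mul, hDK, hDF]
    funext i
    simp only [Pi.sub_apply, Pi.add_apply, Pi.smul_apply, smul_eq_mul]
    ring
  have hcX := cjv_X N
  rw [hDe, D'_sub, D'_mul, D'_mul, D'_dot, D'_dot, hD'X, hD'D, hD'K, hD'G, hcX, he]
  simp only [sub_dot, smul_dot, dot_sub, dot_smul]
  have hgd : N.g = dot N.ps N.ps := rfl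
  rw [hgd]
  linear_combination (-(N.K * dot (Dv N.ps) (Dv' N.ps))) * hFG

end N233
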