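import Pool.Agent.Helper33.N2A5

/-!
# Row A4 of the N2 project: each component of the harmonic part has parallel gradient
-/

set_option autoImplicit false

namespace N233

open N2

lemma re_mul_conj (z : ℂ) : z * (starRingEnd ℂ) z = ((‖z‖ ^ 2 : ℝ) : ℂ) := by
  rw [Complex.mul_conj, Complex.normSq_eq_norm_sq]

/-- the value of `F` is a positive real number -/
lemma F_pos {m : ℕ} (N : Nt Sm m) (p : ℝ × ℝ) :
    ev p N.F = (((∑ i, ‖ev p (N.A i)‖ ^ 2 : ℝ)) : ℂ) ∧ 0 < (∑ i, ‖ev p (N.A i)‖ ^ 2 : ℝ) ∧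
      ev p N.G = (((∑ i, ‖ev p (N.A i)‖ ^ 2 : ℝ)⁻¹ : ℝ) : ℂ) := by
  have h1 : ev p N.F = (((∑ i, ‖ev p (N.A i)‖ ^ 2 : ℝ)) : ℂ) := by
    rw [← N.hAB]; exact (ev p).dot_cjv N.A
  have h2 : ev p N.F * ev p N.G = 1 := by
    have := congrArg (ev p).h N.hFG
    rwa [map_mul, map_one] at this
  have h0 : (0 : ℝ) ≤ ∑ i, ‖ev p (N.A i)‖ ^ 2 := Finset.sum_nonneg fun i _ => by positivity
  have h3 : (∑ i, ‖ev p (N.A i)‖ ^ 2 : ℝ) ≠ 0 := by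
    intro h
    rw [h1, h] at h2
    simp at h2
  have h4 : 0 < (∑ i, ‖ev p (N.A i)‖ ^ 2 : ℝ) := lt_of_le_of_ne h0 (Ne.symm h3)
  refine ⟨h1, h4, ?_⟩
  have h5 : ((∑ i, ‖ev p (N.A i)‖ ^ 2 : ℝ) : ℂ) ≠ 0 := Complex.ofReal_ne_zero.2 h3
  rw [Complex.ofReal_inv]
  rw [h1] at h2
  field_simp
  linear_combination h2

theorem st_A4 (hL : ST_LIO) (h1 : ST_G1) (h2 : ST_G2) (h4 : ST_G4) : ST_A4 := by
  intro m N hK he
  obtain ⟨C, hC⟩ := he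
  obtain ⟨hKc, hG, hg, hy, hGF, hDK, hD'K, hDB, hD'A, hBB, hAB, hAA, hpA, hpB, hDF, hD'F, hDG, hD'G⟩ :=
    h1 Sm m N
  have hphr : cj (D' N.ph) = D' N.ph := by
    have h3 : D' N.ph = N.BB * N.G - N.K * N.K * N.F * N.g := (h4 Sm m N).2.2.1
    have h5 : cj N.BB = N.BB := (h2 Sm m N).2.2.2.2.2.2.2.2.2.2.2.2.2.2.2.2.2.1
    rw [h3, map_sub, map_mul, map_mul, map_mul, map_mul, h5, hG, hKc, N.hFr, hg]
  -- the functions
  set Y : Fin m → Sm := fun i => D (N.Ph i) - N.ph * N.Ph i with hY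
  have hD'Ph : ∀ i, D' (N.Ph i) = 0 := fun i => congrFun N.hPhi i
  have hDcPh : ∀ i, D (cj (N.Ph i)) = 0 := fun i => by rw [D_cj, hD'Ph, map_zero]
  have hDv : ∀ i, D (N.Ph i * cj (N.Ph i) * N.G) = Y i * cj (N.Ph i) * N.G := by
    intro i
    rw [D_mul, D_mul, hDcPh, hDG, hY]
    ring
  have hD'Y : ∀ i, D' (Y i) = -(D' N.ph * N.Ph i) := by
    intro i
    rw [hY]
    simp only []
    rw [D'_sub, D'_mul, ← D_comm, hD'Ph, D_zero]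
    ring
  have hcY : ∀ i, cj (Y i) = D' (cj (N.Ph i)) - N.ph' * cj (N.Ph i) := by
    intro i
    rw [hY]
    simp only []
    rw [map_sub, map_mul, D'_cj]
    rfl
  have hDDv : ∀ i, D' (D (N.Ph i * cj (N.Ph i) * N.G))
      = -(D' N.ph) * (N.Ph i * cj (N.Ph i) * N.G) + Y i * cj (Y i) * N.G := by
    intro i
    rw [hDv, D'_mul, D'_mul, hD'Y, hD'G, hcY]
    ring
  -- values
  have hph0 : ∀ p, ev p (D' N.ph) = (((ev p (D' N.ph)).re : ℝ) : ℂ) := by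
    intro p
    have h := congrArg (ev p).h hphr
    rw [(ev p).hcj] at h
    exact (Complex.conj_eq_iff_real.1 h).elim fun r hr => by rw [hr, Complex.ofReal_re]
  have hval : ∀ i p, ev p (N.Ph i * cj (N.Ph i) * N.G)
      = ((‖ev p (N.Ph i)‖ ^ 2 * (∑ j, ‖ev p (N.A j)‖ ^ 2 : ℝ)⁻¹ : ℝ) : ℂ) := by
    intro i p
    rw [map_mul, map_mul, (ev p).hcj, re_mul_conj, (F_pos N p).2.2, ← Complex.ofReal_mul]
  have hvalY : ∀ i p, ev p (Y i * cj (Y i) * N.G)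
      = ((‖ev p (Y i)‖ ^ 2 * (∑ j, ‖ev p (N.A j)‖ ^ 2 : ℝ)⁻¹ : ℝ) : ℂ) := by
    intro i p
    rw [map_mul, map_mul, (ev p).hcj, re_mul_conj, (F_pos N p).2.2, ← Complex.ofReal_mul]
  have hlapv : ∀ i p, (ev p (D' (D (N.Ph i * cj (N.Ph i) * N.G)))).re
      = -(ev p (D' N.ph)).re * (‖ev p (N.Ph i)‖ ^ 2 * (∑ j, ‖ev p (N.A j)‖ ^ 2 : ℝ)⁻¹)
        + ‖ev p (Y i)‖ ^ 2 * (∑ j, ‖ev p (N.A j)‖ ^ 2 : ℝ)⁻¹ := by
    intro i p
    rw [hDDv, map_add, map_mul, map_neg, hph0, hval, hvalY, ← Complex.ofReal_neg,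
      ← Complex.ofReal_mul, ← Complex.ofReal_add, Complex.ofReal_re, Complex.ofReal_re]
  have hnn : ∀ i p, 0 ≤ -(ev p (D' N.ph)).re
      * (‖ev p (N.Ph i)‖ ^ 2 * (∑ j, ‖ev p (N.A j)‖ ^ 2 : ℝ)⁻¹) := by
    intro i p
    have h3 := (F_pos N p).2.1
    have h5 : 0 ≤ -(ev p (D' N.ph)).re := by linarith [hK p]
    positivity
  have hnY : ∀ i p, 0 ≤ ‖ev p (Y i)‖ ^ 2 * (∑ j, ‖ev p (N.A j)‖ ^ 2 : ℝ)⁻¹ := by
    intro i p
    have h3 := (F_pos N p).2.1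
    positivity
  -- bounded above
  have hbd : ∀ i p, (ev p (N.Ph i * cj (N.Ph i) * N.G)).re ≤ 2 * (1 + C) := by
    intro i p
    rw [hval, Complex.ofReal_re]
    obtain ⟨hF1, hF2, hF3⟩ := F_pos N p
    set S : ℝ := ∑ j, ‖ev p (N.A j)‖ ^ 2 with hS
    have hA1 : ‖ev p (N.A i)‖ ^ 2 ≤ S :=
      Finset.single_le_sum (f := fun j => ‖ev p (N.A j)‖ ^ 2) (fun j _ => by positivity)
        (Finset.mem_univ i)
    have hE : (ev p N.e) = (((∑ j, ‖ev p (D (N.ps j))‖ ^ 2 : ℝ) * S⁻¹ : ℝ) : ℂ) := by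
      have h5 : N.e = dot (Dv N.ps) (cjv (Dv N.ps)) * N.G := by rw [cjv_Dps]; rfl
      rw [h5, map_mul, (ev p).dot_cjv, hF3, ← Complex.ofReal_mul]
      rfl
    have hE2 : (∑ j, ‖ev p (D (N.ps j))‖ ^ 2 : ℝ) * S⁻¹ ≤ C := by
      have h6 := hC p
      rw [hE, Complex.ofReal_re] at h6
      exact h6
    have hp1 : ‖ev p (D (N.ps i))‖ ^ 2 ≤ ∑ j, ‖ev p (D (N.ps j))‖ ^ 2 :=
      Finset.single_le_sum (f := fun j => ‖ev p (D (N.ps j))‖ ^ 2) (fun j _ => by positivity)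
        (Finset.mem_univ i)
    have hPh : ev p (N.Ph i) = ev p (N.A i) - ev p (D (N.ps i)) := by
      have h7 : N.Ph i = N.A i - D (N.ps i) := rfl
      rw [h7, map_sub]
    have h8 : ‖ev p (N.Ph i)‖ ^ 2 ≤ 2 * ‖ev p (N.A i)‖ ^ 2 + 2 * ‖ev p (D (N.ps i))‖ ^ 2 := by
      have h9 : ‖ev p (N.Ph i)‖ ≤ ‖ev p (N.A i)‖ + ‖ev p (D (N.ps i))‖ := by
        rw [hPh]; exact norm_sub_le _ _
      have h10 := norm_nonneg (ev p (N.Ph i))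
      nlinarith [sq_nonneg (‖ev p (N.A i)‖ - ‖ev p (D (N.ps i))‖), norm_nonneg (ev p (N.A i)),
        norm_nonneg (ev p (D (N.ps i)))]
    have hSi : 0 < S⁻¹ := inv_pos.2 hF2
    have hSS : S * S⁻¹ = 1 := mul_inv_cancel₀ hF2.ne'
    calc ‖ev p (N.Ph i)‖ ^ 2 * S⁻¹
        ≤ (2 * S + 2 * ∑ j, ‖ev p (D (N.ps j))‖ ^ 2) * S⁻¹ := by
          apply mul_le_mul_of_nonneg_right _ hSi.le
          linarith
      _ = 2 * (S * S⁻¹) + 2 * ((∑ j, ‖ev p (D (N.ps j))‖ ^ 2) * S⁻¹) := by ring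
      _ ≤ 2 * (1 + C) := by rw [hSS]; linarith
  have hconst : ∀ i p p', ev p (N.Ph i * cj (N.Ph i) * N.G) = ev p' (N.Ph i * cj (N.Ph i) * N.G) := by
    intro i
    refine hL (N.Ph i * cj (N.Ph i) * N.G) ?_ ?_ ⟨2 * (1 + C), hbd i⟩
    · rw [map_mul, map_mul, cj_cj, hG]; ring
    · intro p
      rw [hlapv]
      exact add_nonneg (hnn i p) (hnY i p)
  have hzero : ∀ i, N.Ph i * cj (N.Ph i) * N.G = Cst (ev (0, 0) (N.Ph i * cj (N.Ph i) * N.G)) := by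
    intro i
    apply Sm.ext_ev
    intro p
    rw [(ev p).hC]
    exact hconst i p (0, 0)
  have hlap0 : ∀ i p, (ev p (D' (D (N.Ph i * cj (N.Ph i) * N.G)))).re = 0 := by
    intro i p
    rw [hzero i, D_Cst, D'_zero, map_zero, Complex.zero_re]
  funext i
  apply Sm.ext_ev
  intro p
  have h11 := hlap0 i p
  rw [hlapv] at h11
  have h12 : ‖ev p (Y i)‖ ^ 2 * (∑ j, ‖ev p (N.A j)‖ ^ 2 : ℝ)⁻¹ = 0 := by
    have := hnn i p
    have := hnY i p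
    linarith
  have h13 : ‖ev p (Y i)‖ ^ 2 = 0 := by
    rcases mul_eq_zero.1 h12 with h | h
    · exact h
    · exact absurd (inv_eq_zero.1 h) (F_pos N p).2.1.ne'
  have h14 : ev p (Y i) = 0 := by
    have := pow_eq_zero_iff (two_ne_zero) |>.1 h13
    exact norm_eq_zero.1 this
  have h15 : Dv N.Ph i = Y i + N.ph * N.Ph i := by
    rw [hY]; simp only [Dv]; ring
  have h16 : (N.ph • N.Ph) i = N.ph * N.Ph i := rfl
  rw [h15, h16, map_add, h14, zero_add]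

end N233
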