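import Pool.Agent.Helper33.N2A2

/-!
# Row A5 of the N2 project: parallel gradient implies constant mean curvature
-/

set_option autoImplicit false

namespace N233

open N2

lemma cjv_Ph {R : Type} [CommRing R] [DR R] {m : ℕ} (N : Nt R m) : N.Ph' = N.B - Dv' N.ps := by
  have h : N.Ph' = cjv (N.A - Dv N.ps) := rfl
  rw [h, cjv_sub, cjv_Dps]
  rfl

theorem st_A5 (hC : ST_CON) (h1 : ST_G1) (h4 : ST_G4) : ST_A5 := by
  intro m N hP p p'
  obtain ⟨hK, hG, hg, hy, hGF, hDK, hD'K, hDB, hD'A, hBB, hAB, hAA, hpA, hpB, hDF, hD'F, hDG, hD'G⟩ :=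
    h1 Sm m N
  have hL : dot N.Ph' N.A = N.y * N.F := (h4 Sm m N).2.2.2.2.2.1
  have hgd : N.g = dot N.ps N.ps := rfl
  have hD'g : D' N.g = 2 * dot (Dv' N.ps) N.ps := by
    rw [hgd, D'_dot, dot_comm N.ps (Dv' N.ps)]; ring
  have hyd : N.y = 1 - N.K * N.g := rfl
  have hD'y : D' N.y = -(N.K * (2 * dot (Dv' N.ps) N.ps)) := by
    rw [hyd, D'_sub, D'_one, D'_mul, hD'K, hD'g]; ring
  have hD'P : Dv' N.Ph' = N.ph' • N.Ph' := by
    have h : N.Ph' = cjv N.Ph := rfl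
    rw [h, Dv'_cjv, hP, cjv_smul]
    rfl
  have hPp : dot N.Ph' N.ps = -dot (Dv' N.ps) N.ps := by
    rw [cjv_Ph, sub_dot, dot_comm N.B N.ps, hpB]; ring
  have hD'L := congrArg D' hL
  rw [D'_dot, hD'P, smul_dot, hD'A, dot_smul, hPp, hL, D'_mul, hD'y, hD'F] at hD'L
  have h0 : N.K * (3 * dot (Dv' N.ps) N.ps) * N.F = 0 := by
    linear_combination hD'L
  have h00 : N.K * (3 * dot (Dv' N.ps) N.ps) = 0 := by
    linear_combination N.G * h0 - (N.K * (3 * dot (Dv' N.ps) N.ps)) * N.hFG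
  have hk : (N.k : ℂ) * 3 ≠ 0 := mul_ne_zero (Complex.ofReal_ne_zero.2 N.hk) (by norm_num)
  have hz : dot (Dv' N.ps) N.ps = 0 := by
    apply Cst_mul_cancel hk
    have hKd : N.K = Cst (N.k : ℂ) := rfl
    rw [map_mul, map_ofNat, ← hKd]
    linear_combination h00
  have hD'g0 : D' N.g = 0 := by rw [hD'g, hz, mul_zero]
  have hDg0 : D N.g = 0 := by rw [← hg, D_cj, hD'g0, map_zero]
  obtain ⟨c, hc⟩ := hC N.g hDg0 hD'g0
  rw [hc, (ev p).hC, (ev p').hC]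

end N233
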